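import Pool.Agent.Helper83.SM.Excl

/-!
# Finiteness of the polarized systems without isotropic relations between the Frobenius eigenvalues
-/

set_option autoImplicit false
set_option linter.unusedSectionVars false

namespace Pool.Agent.Helper83.SM

open Module Matrix Polynomial NumberField Pool.Agent.Y800 Pool.Agent.R390.SF IntegralSystem
open Pool.Agent.Y126.SH (chi exists_reps)

attribute [local instance] Subgroup.fintypeQuotientOfFiniteIndex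

/-- The properties of the realisations of a polarized pure motive over `F` of weight `w` with a
lattice, with good reduction outside the finite set `S` of primes and semistable reduction in `S`,
the polarization of `T_ℓ` being perfect for `ℓ` outside the finite set `S'`. There is no condition
on the Hodge numbers. -/
structure Polarized {F : SubFld ℚ} {n : ℕ} (S S' : Finset ℕ) (w : ℕ) (T : IntegralSystem F n) :
    Prop extends T.GoodSystem S w where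
  /-- semistable reduction in `S` -/
  semistable : ∀ p : ℕ, p.Prime → p ∈ S → ∀ 𝔭 : Ideal (𝓞 F), 𝔭.IsMaximal → (p : 𝓞 F) ∈ 𝔭 →
    T.SemistableAt p 𝔭
  /-- Hodge-Tate weights of `V_ℓ` at the places above `ℓ` -/
  weights : ∀ (ℓ : ℕ) [Fact ℓ.Prime], ∃ c : ℕ,
    WeightsAt F (T.rat ℓ) (fun g => algebraMap ℤ_[ℓ] ℚ_[ℓ] (chi ℓ g : ℤ_[ℓ])) ℓ c
  /-- Fontaine-Laffaille weights of `T_ℓ / ℓ` at the places above `ℓ`, for `ℓ` outside `S'` -/
  residualWeights : ∀ (ℓ : ℕ) [Fact ℓ.Prime], ℓ ∉ S' →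
    WeightsAt F (T.res ℓ) (fun g => PadicInt.toZMod (chi ℓ g : ℤ_[ℓ])) ℓ (w * n)
  /-- a polarization of `T_ℓ`, perfect for `ℓ` outside `S'` -/
  polarization : ∀ (ℓ : ℕ) [Fact ℓ.Prime], ∃ J : Matrix (Fin n) (Fin n) ℤ_[ℓ],
    T.IsPolarization w ℓ J ∧ (ℓ ∉ S' → IsUnit J.det)

/-- The class of the polarized systems without isotropic relations: for every `ℓ` in `Λ` and every
`d` with `0 < d ≤ n / 2` there is a prime number `p ≠ ℓ` outside `S` such that the Frobenius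
eigenvalues at the places above `p` have no isotropic relation of size `d`. -/
structure Generic {F : SubFld ℚ} {n : ℕ} (S S' : Finset ℕ) (w : ℕ) (Λ : Set ℕ)
    (T : IntegralSystem F n) : Prop extends Polarized S S' w T where
  generic : ∀ ℓ : ℕ, ℓ.Prime → ℓ ∈ Λ → ∀ d : ℕ, 0 < d → 2 * d ≤ n →
    ∃ p : ℕ, p.Prime ∧ p ∉ S ∧ p ≠ ℓ ∧ NoIsotropicRelation T w p d

variable {F : SubFld ℚ} {n : ℕ} {S S' : Finset ℕ} {w : ℕ} {Λ : Set ℕ} {T : IntegralSystem F n}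

theorem Polarized.pure (hT : Polarized S S' w T) : T.PureSystem S w where
  toGoodSystem := hT.toGoodSystem
  semistable := hT.semistable
  weights := hT.weights
  residualWeights := by
    refine ⟨S'.sup id, fun ℓ _ hlt => hT.residualWeights ℓ ?_⟩
    exact fun h => absurd (Finset.le_sup (f := id) h) (not_le.2 hlt)

/-- the dimension of an isotropic subspace -/
theorem two_mul_le {k : Type} [Field k] {J : Matrix (Fin n) (Fin n) k} (hJ : J.det ≠ 0)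
    {U : Submodule k (Fin n → k)} (hiso : ∀ x ∈ U, ∀ y ∈ U, dotProduct x (J.mulVec y) = 0) :
    2 * finrank k U ≤ n := by
  classical
  let B := Matrix.toBilin' J
  have hnd : B.Nondegenerate := by
    apply LinearMap.BilinForm.nondegenerate_toBilin'_of_det_ne_zero'
    exact hJ
  let Φ : (Fin n → k) →ₗ[k] Dual k U := (U.subtype.dualMap).comp (LinearMap.flip B)
  have hΦ : ∀ v (u : U), Φ v u = B u v := fun v u => rfl
  have hker : U ≤ LinearMap.ker Φ := by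
    intro v hv
    rw [LinearMap.mem_ker]
    apply LinearMap.ext
    intro u
    rw [hΦ]
    show B u v = 0
    rw [Matrix.toBilin'_apply']
    exact hiso u u.2 v hv
  have hΦs : Function.Surjective Φ := by
    have h1 : Function.Surjective (U.subtype.dualMap) :=
      LinearMap.dualMap_surjective_of_injective U.subtype_injective
    have h2 : Function.Surjective (LinearMap.flip B) := by
      have h3 : Function.Injective (LinearMap.flip B) := by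
        rw [← LinearMap.ker_eq_bot, LinearMap.ker_eq_bot']
        intro x hx
        apply hnd.2
        intro y
        exact LinearMap.congr_fun hx y
      exact (LinearMap.injective_iff_surjective_of_finrank_eq_finrank
        (Subspace.dual_finrank_eq).symm).1 h3
    exact h1.comp h2
  have h1 := LinearMap.finrank_range_add_finrank_ker Φ
  rw [LinearMap.range_eq_top.2 hΦs, finrank_top, Subspace.dual_finrank_eq, finrank_fin_fun] at h1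
  have h2 := Submodule.finrank_mono hker
  omega

section rat

variable [hF : FiniteDimensional ℚ F]

theorem gen_rat (hT : Generic S S' w Λ T) {ℓ : ℕ} [hℓ : Fact ℓ.Prime] (hΛ : ℓ ∈ Λ) :
    ∃ J : Matrix (Fin n) (Fin n) ℚ_[ℓ], Equi (T.rat ℓ) J ∧ NoIso (T.rat ℓ) J := by
  obtain ⟨J, hJ, _⟩ := hT.polarization ℓ
  refine ⟨_, equi_rat hJ, fun U hU hiso => ?_⟩
  by_contra hne
  have hpos : 0 < finrank ℚ_[ℓ] U := by
    rcases Nat.eq_zero_or_pos (finrank ℚ_[ℓ] U) with h0 | h0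
    · exact absurd (Submodule.finrank_eq_zero.1 h0) hne
    · exact h0
  have hdet : algebraMap ℤ_[ℓ] ℚ_[ℓ] J.det ≠ 0 := fun h0 =>
    hJ.nondegenerate (Subtype.ext h0)
  have h2 : 2 * finrank ℚ_[ℓ] U ≤ n := two_mul_le (J := J.map (algebraMap ℤ_[ℓ] ℚ_[ℓ])) (by
    have : (J.map (algebraMap ℤ_[ℓ] ℚ_[ℓ])).det = algebraMap ℤ_[ℓ] ℚ_[ℓ] J.det :=
      (RingHom.map_det _ J).symm
    rwa [this]) hiso
  obtain ⟨p, hp, hpS, hpℓ, hno⟩ := hT.generic ℓ hℓ.out hΛ _ hpos h2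
  obtain ⟨P₀, m, hP₀, hpP₀, hm⟩ := exists_expo (F := F) hp
  obtain ⟨M, hM0, hM⟩ := exists_exclIso hT.toGoodSystem hp hpS hno hP₀ hpP₀ hm
  exact no_iso (algebraMap ℤ_[ℓ] ℚ_[ℓ]) hT.toPolarized.pure hJ hdet hU hiso
    (rat_wt hT.toPolarized.pure U hU) hp hpS hpℓ.symm hP₀ hpP₀ hm (M := M)
    (by exact_mod_cast hM0) hM

theorem gen_semis (hT : Generic S S' w Λ T) {ℓ : ℕ} [hℓ : Fact ℓ.Prime] (hΛ : ℓ ∈ Λ) :
    Semis (T.rat ℓ) := by
  obtain ⟨J, h1, h2⟩ := gen_rat hT hΛ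
  exact fun U hU => ⟨orth J U, orth_stable h1 hU, isCompl_orth h1 h2 hU⟩

end rat

/-- the data at the good primes which exclude isotropic subspaces modulo large primes -/
structure Data (F : SubFld ℚ) where
  /-- the prime numbers -/
  p : ℕ → ℕ
  /-- the maximal ideals -/
  P₀ : ℕ → Ideal ZBar
  /-- the exponents -/
  m : ℕ → GQ ⧸ F.fixingSubgroup → ℕ
  /-- the exceptional integers -/
  M : ℕ → ℤ

variable [hF : FiniteDimensional ℚ F]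

/-- the properties of the data -/
def Data.Good (D : Data F) (S : Finset ℕ) (w : ℕ) (T : IntegralSystem F n) : Prop :=
  ∀ d : ℕ, 0 < d → 2 * d ≤ n → (D.p d).Prime ∧ D.p d ∉ S ∧ (D.P₀ d).IsMaximal ∧
    ((D.p d : ℕ) : ZBar) ∈ D.P₀ d ∧ Expo F (D.p d) (D.P₀ d) (D.m d) ∧ D.M d ≠ 0 ∧
    ExclIso T w (D.p d) d (D.P₀ d) (D.m d) (D.M d)

theorem exists_Data (hT : Generic S S' w Λ T) {ℓ₀ : ℕ} (hℓ₀ : ℓ₀.Prime) (hΛ : ℓ₀ ∈ Λ) :
    ∃ D : Data F, D.Good S w T ∧ ∀ d, 0 < d → 2 * d ≤ n → D.p d ≠ ℓ₀ := by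
  have key : ∀ d : ℕ, ∃ (p : ℕ) (P₀ : Ideal ZBar) (m : GQ ⧸ F.fixingSubgroup → ℕ) (M : ℤ),
      0 < d → 2 * d ≤ n → (p.Prime ∧ p ∉ S ∧ P₀.IsMaximal ∧ (p : ZBar) ∈ P₀ ∧ Expo F p P₀ m ∧
        M ≠ 0 ∧ ExclIso T w p d P₀ m M) ∧ p ≠ ℓ₀ := by
    intro d
    by_cases hd : 0 < d ∧ 2 * d ≤ n
    · obtain ⟨p, hp, hpS, hpℓ, hno⟩ := hT.generic ℓ₀ hℓ₀ hΛ d hd.1 hd.2
      obtain ⟨P₀, m, hP₀, hpP₀, hm⟩ := exists_expo (F := F) hp
      obtain ⟨M, hM0, hM⟩ := exists_exclIso hT.toGoodSystem hp hpS hno hP₀ hpP₀ hm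
      exact ⟨p, P₀, m, M, fun _ _ => ⟨⟨hp, hpS, hP₀, hpP₀, hm, hM0, hM⟩, hpℓ⟩⟩
    · exact ⟨0, ⊥, fun _ => 0, 0, fun h1 h2 => absurd ⟨h1, h2⟩ hd⟩
  choose p P₀ m M hk using key
  exact ⟨⟨p, P₀, m, M⟩, fun d h1 h2 => (hk d h1 h2).1, fun d h1 h2 => (hk d h1 h2).2⟩

/-- no isotropic subspaces modulo large primes -/
theorem gen_res (hT : Polarized S S' w T) {D : Data F} (hD : D.Good S w T) {ℓ : ℕ}
    [hℓ : Fact ℓ.Prime] (hℓS : ℓ ∉ S') (h1 : ∀ d ≤ n, D.p d < ℓ ∧ (D.M d).natAbs < ℓ)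
    (hW : ∀ (U : Submodule (ZMod ℓ) (Fin n → ZMod ℓ)) (hU : IsStable (T.res ℓ) U),
        Wt (PadicInt.toZMod (p := ℓ)) w (finrank (ZMod ℓ) U) (detChar (T.res ℓ) U hU)) :
    ∃ J : Matrix (Fin n) (Fin n) ℤ_[ℓ], T.IsPolarization w ℓ J ∧ IsUnit J.det ∧
      NoIso (toF (T.rho ℓ)) (rd J) := by
  obtain ⟨J, hJ, hJu⟩ := hT.polarization ℓ
  have hJu := hJu hℓS
  refine ⟨J, hJ, hJu, fun U hU hiso => ?_⟩
  by_contra hne
  have hpos : 0 < finrank (ZMod ℓ) U := by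
    rcases Nat.eq_zero_or_pos (finrank (ZMod ℓ) U) with h0 | h0
    · exact absurd (Submodule.finrank_eq_zero.1 h0) hne
    · exact h0
  have hdet : PadicInt.toZMod J.det ≠ 0 := (hJu.map (PadicInt.toZMod (p := ℓ))).ne_zero
  have h2 : 2 * finrank (ZMod ℓ) U ≤ n := two_mul_le (J := rd J) (by
    rwa [rd_det]) hiso
  obtain ⟨hp, hpS, hP₀, hpP₀, hm, hM0, hM⟩ := hD _ hpos h2
  obtain ⟨h3, h4⟩ := h1 (finrank (ZMod ℓ) U) (by omega)
  exact no_iso (PadicInt.toZMod (p := ℓ)) hT.pure hJ hdet hU hiso (hW U hU) hp hpS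
    (by omega) hP₀ hpP₀ hm (ne_zero_mod hM0 h4) hM

/-- the characteristic polynomials of conjugate representations -/
theorem poly_eq {T T0 : IntegralSystem F n} (hT : T.GoodSystem S w) (hT0 : T0.GoodSystem S w)
    {ℓ : ℕ} [hℓ : Fact ℓ.Prime] {B : Matrix (Fin n) (Fin n) ℤ_[ℓ]} (hB : Inter T0 T ℓ B)
    {p : ℕ} (hp : p.Prime) (hpS : p ∉ S) (hpℓ : ℓ ≠ p) {𝔭 : Ideal (𝓞 F)} (h𝔭 : 𝔭.IsMaximal)
    (hp𝔭 : (p : 𝓞 F) ∈ 𝔭) : T.poly 𝔭 = T0.poly 𝔭 := by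
  obtain ⟨Pl, s, hd⟩ := exists_data (F := F) hp
  obtain ⟨h1, h2, h3, h4⟩ := hd 𝔭 h𝔭 hp𝔭
  have h5 := charpoly_place (algebraMap ℤ_[ℓ] ℚ_[ℓ]) hT hp hpS hpℓ h𝔭 hp𝔭 h1 h3 h4
  have h6 := charpoly_place (algebraMap ℤ_[ℓ] ℚ_[ℓ]) hT0 hp hpS hpℓ h𝔭 hp𝔭 h1 h3 h4
  have hinj : Function.Injective (Int.castRingHom ℚ_[ℓ]) := Int.cast_injective
  apply Polynomial.map_injective _ hinj
  rw [← h5, ← h6, charpoly_lin, charpoly_lin]
  -- conjugation
  have hdet : IsUnit (qm B).det := by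
    rw [qm_det]
    exact isUnit_iff_ne_zero.2 fun h0 => hB.1 (Subtype.ext h0)
  obtain ⟨C, hC⟩ := (Matrix.isUnit_iff_isUnit_det (qm B)).2 hdet
  have h7 : (T0.rat ℓ (s 𝔭) : Matrix (Fin n) (Fin n) ℚ_[ℓ]) * C = C * T.rat ℓ (s 𝔭) := by
    rw [hC]
    have h8 := congrArg qm (hB.2 (s 𝔭))
    rw [map_mul, map_mul] at h8
    exact h8
  have h8 : (T.rat ℓ (s 𝔭) : Matrix (Fin n) (Fin n) ℚ_[ℓ]) =
      (C⁻¹ : GL (Fin n) ℚ_[ℓ]) * (T0.rat ℓ (s 𝔭)) * C := by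
    rw [Matrix.mul_assoc, h7, ← Matrix.mul_assoc, ← Units.val_mul, inv_mul_cancel, Units.val_one,
      Matrix.one_mul]
  have h10 := Matrix.charpoly_units_conj' C (T0.rat ℓ (s 𝔭) : Matrix (Fin n) (Fin n) ℚ_[ℓ])
  rw [← Matrix.coe_units_inv] at h10
  exact (congrArg Matrix.charpoly h8).trans h10

/-- **Finiteness.** -/
theorem gen_finiteness (hn : 0 < n) (w : ℕ) (S S' : Finset ℕ) (Λ : Set ℕ) :
    ∃ (m : ℕ) (T : Fin m → IntegralSystem F n), (∀ i, Generic S S' w Λ (T i)) ∧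
      ∀ T' : IntegralSystem F n, Generic S S' w Λ T' → ∃ i, IsomorphicOn Λ (T i) T' := by
  classical
  by_cases hΛ0 : ∃ ℓ₀ : ℕ, ℓ₀.Prime ∧ ℓ₀ ∈ Λ
  swap
  · -- nothing to prove
    by_cases hex : ∃ T : IntegralSystem F n, Generic S S' w Λ T
    · obtain ⟨T, hT⟩ := hex
      exact ⟨1, fun _ => T, fun _ => hT, fun T' _ => ⟨0, fun ℓ hℓ hΛ =>
        absurd ⟨ℓ, hℓ.out, hΛ⟩ hΛ0⟩⟩
    · exact ⟨0, fun i => i.elim0, fun i => i.elim0, fun T' hT' => absurd ⟨T', hT'⟩ hex⟩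
  obtain ⟨ℓ₀, hℓ₀, hℓ₀Λ⟩ := hΛ0
  have hℓ₀F : Fact ℓ₀.Prime := ⟨hℓ₀⟩
  obtain ⟨𝒯, h𝒯, hdet⟩ := traces_of_finite (F := F) hn S
  obtain ⟨p, hp, hpS, P, hP, hpP, σ, hσ, hσc⟩ := exists_core (F := F) (S ∪ {ℓ₀})
  have hpS1 : p ∉ S := fun h => hpS (Finset.mem_union_left _ h)
  have hpℓ₀ : ℓ₀ ≠ p := fun h => hpS (Finset.mem_union_right _ (Finset.mem_singleton.2 h.symm))
  refine exists_reps (fun T : IntegralSystem F n => Generic S S' w Λ T)
    (fun T T' => IsomorphicOn Λ T T') (fun T => fun p : 𝒯 => (T.poly p).coeff (n - 1)) ?_ ?_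
  · refine (Set.Finite.pi' (t := fun p : 𝒯 => Set.Icc
      (-((Nat.card (𝓞 F ⧸ (p : Ideal (𝓞 F))) ^ w) ^ n * n.choose (n / 2) : ℕ) : ℤ)
      (((Nat.card (𝓞 F ⧸ (p : Ideal (𝓞 F))) ^ w) ^ n * n.choose (n / 2) : ℕ) : ℤ))
      (fun p => Set.finite_Icc _ _)).subset ?_
    rintro _ ⟨T, hT, rfl⟩ p
    obtain ⟨h1, r, hr, hrS, h2⟩ := h𝒯 p p.2
    exact abs_le.1 (coeff_bound hT.toGoodSystem hr hrS h1 h2 (n - 1))
  · intro T0 hT0
    obtain ⟨M, hM0, hM⟩ := exists_M hT0.toGoodSystem hp hpS1 hP hpP hσ hσc (w * n)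
    obtain ⟨D, hD, hDℓ⟩ := exists_Data hT0 hℓ₀ hℓ₀Λ
    let N : ℕ := max (max (S'.sup id) (max p M.natAbs))
      ((Finset.range (n + 1)).sup fun d => max (D.p d) (D.M d).natAbs)
    choose k c hk hc using local_code2 (Λ := Λ) (T0 := T0)
      (fun ℓ hℓ hℓΛ => gen_semis hT0 hℓΛ)
    obtain ⟨K, ⟨e⟩⟩ := Finite.exists_equiv_fin (∀ ℓ : Fin (N + 1), Fin (k ℓ))
    refine ⟨K, fun T => (e fun ℓ => ⟨c ℓ T, hk ℓ T⟩ : ℕ), fun T => Fin.is_lt _, ?_⟩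
    intro T T' hT hT' hi hi' hcode ℓ hℓ hℓΛ
    have key : ∀ (ℓ : ℕ) [Fact ℓ.Prime], ℓ ∈ Λ → ∀ T : IntegralSystem F n, Generic S S' w Λ T →
        ((fun x : 𝒯 => (T.poly x).coeff (n - 1)) = fun x : 𝒯 => (T0.poly x).coeff (n - 1)) →
        ∃ B : Matrix (Fin n) (Fin n) ℤ_[ℓ], Inter T0 T ℓ B := by
      intro ℓ _ hℓΛ T hT hi
      refine exists_inter (gen_semis hT0 hℓΛ) (gen_semis hT hℓΛ) ?_
      exact hdet w w T T0 hT.toGoodSystem hT0.toGoodSystem (fun p hp => congrFun hi ⟨p, hp⟩) ℓ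
    -- the polynomials
    have hpoly : ∀ T : IntegralSystem F n, Generic S S' w Λ T →
        ((fun x : 𝒯 => (T.poly x).coeff (n - 1)) = fun x : 𝒯 => (T0.poly x).coeff (n - 1)) →
        ∀ p : ℕ, p.Prime → p ∉ S → p ≠ ℓ₀ → ∀ 𝔭 : Ideal (𝓞 F), 𝔭.IsMaximal → (p : 𝓞 F) ∈ 𝔭 →
          T.poly 𝔭 = T0.poly 𝔭 := by
      intro T hT hi p hp hpS hpℓ 𝔭 h𝔭 hp𝔭
      obtain ⟨B, hB⟩ := key ℓ₀ hℓ₀Λ T hT hi
      exact poly_eq hT.toGoodSystem hT0.toGoodSystem hB hp hpS hpℓ.symm h𝔭 hp𝔭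
    have key2 : N < ℓ → ∀ T : IntegralSystem F n, Generic S S' w Λ T →
        ((fun x : 𝒯 => (T.poly x).coeff (n - 1)) = fun x : 𝒯 => (T0.poly x).coeff (n - 1)) →
        ∃ J : Matrix (Fin n) (Fin n) ℤ_[ℓ], T.IsPolarization w ℓ J ∧ IsUnit J.det ∧
          NoIso (toF (T.rho ℓ)) (rd J) := by
      intro hN T hT hi
      simp only [N, max_lt_iff] at hN
      obtain ⟨⟨h1, h2, h3⟩, h4⟩ := hN
      have hℓS : ℓ ∉ S' := fun h => absurd (Finset.le_sup (f := id) h) (not_le.2 h1)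
      have hDT : D.Good S w T := by
        intro d hd0 hd
        obtain ⟨a1, a2, a3, a4, a5, a6, a7⟩ := hD d hd0 hd
        refine ⟨a1, a2, a3, a4, a5, a6, ?_⟩
        intro Ω _ _ hMΩ A hA a ha
        refine a7 Ω hMΩ A (fun 𝔭 h𝔭 hp𝔭 => ?_) a ha
        rw [← hpoly T hT hi _ a1 a2 (hDℓ d hd0 hd) 𝔭 h𝔭 hp𝔭]
        exact hA 𝔭 h𝔭 hp𝔭
      refine gen_res hT.toPolarized hDT hℓS (fun d hd => ?_) (fun U hU => ?_)
      · have h5 := lt_of_le_of_lt (Finset.le_sup (f := fun d => max (D.p d) (D.M d).natAbs)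
          (Finset.mem_range.2 (Nat.lt_succ_of_le hd))) h4
        exact max_lt_iff.1 h5
      · refine weight_sub (PadicInt.toZMod (p := ℓ)) continuous_toZMod mink_zmod
          hT.toPolarized.pure (hT.residualWeights ℓ hℓS) hp hpS1 (by omega) hP hpP hσ hσc
          (M := M) (ne_zero_mod hM0 h3) ?_ U hU
        intro Ω _ _ hMΩ A a ha hA hprod
        refine hM Ω hMΩ A a ha (fun q => ?_) hprod
        rw [← hpoly T hT hi p hp hpS1 hpℓ₀.symm _ (pla_max hP q) (pla_mem hpP q)]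
        exact hA q
    have h1 := key ℓ hℓΛ T hT hi
    have h2 := key ℓ hℓΛ T' hT' hi'
    by_cases hℓN : ℓ ≤ N
    · have h3 := e.injective (Fin.ext hcode)
      have h4 := congrFun h3 ⟨ℓ, Nat.lt_succ_of_le hℓN⟩
      exact hc ℓ T T' hℓΛ h1 h2 (congrArg Fin.val h4)
    · obtain ⟨B, hB, hBρ⟩ := h1
      obtain ⟨B', hB', hBρ'⟩ := h2
      obtain ⟨J0, hJ0, -, hn0⟩ := key2 (not_le.1 hℓN) T0 hT0 rfl
      obtain ⟨J, hJ, hJu, hn⟩ := key2 (not_le.1 hℓN) T hT hi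
      obtain ⟨J', hJ', hJu', hn'⟩ := key2 (not_le.1 hℓN) T' hT' hi'
      obtain ⟨A, hA⟩ := uniq hJu hJ.equivariant hJ0.equivariant hn hn0 hB hBρ
      obtain ⟨A', hA'⟩ := uniq hJu' hJ'.equivariant hJ0.equivariant hn' hn0 hB' hBρ'
      refine ⟨A' * A⁻¹, fun g => ?_⟩
      rw [hA, hA']
      group

end Pool.Agent.Helper83.SM
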