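import Pool.Agent.R390.SF.PolDef
import Pool.Agent.R390.SF.Tra

/-!
# Multiplicative relations between the Frobenius eigenvalues at the places above a prime number
-/

set_option autoImplicit false

namespace Pool.Agent.Helper83.SM

open Polynomial NumberField Pool.Agent.Y800 Pool.Agent.R390.SF
open Pool.Agent.Y126.SH (chi)

/-- The multisets `A 𝔭` of complex numbers, `𝔭` the places of `F` above the prime number `p`, are
balanced (in weight `w` and of cardinality `d`): with `N` the index of the normal core of `G_F` in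
`G_ℚ` (the degree of the Galois closure of `F`) and `2 a = w [F : ℚ] d`,

`∏_𝔭 (∏ A_𝔭) ^ (e_𝔭 N) = p ^ (N a)`,

that is, the product of all the `A_𝔭`, with the ramification indices `e_𝔭` as multiplicities, is
`p ^ (w [F : ℚ] d / 2)` up to an `N`-th root of unity. The product is written as a product over the
cosets `q` of `G_F` in `G_ℚ`: the place `𝔭 = (cj q.out P₀).under (𝓞 F)` below the conjugate of a
maximal ideal `P₀` above `p` of the ring of all algebraic integers occurs `[F_𝔭 : ℚ_p] = e_𝔭 f_𝔭`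
times, and the exponent `m q` is `N / f_𝔭`, as `(p ^ f_𝔭) ^ m = p ^ N`. -/
def Balanced (F : SubFld ℚ) (w p d : ℕ) (A : Ideal (𝓞 F) → Multiset ℂ) : Prop :=
  ∃ P₀ : Ideal ZBar, P₀.IsMaximal ∧ (p : ZBar) ∈ P₀ ∧
    ∃ (m : GQ ⧸ F.fixingSubgroup → ℕ) (a : ℕ),
      (∀ q, Nat.card (𝓞 F ⧸ (cj q.out P₀).under (𝓞 F)) ^ m q = p ^ expo F.fixingSubgroup) ∧
      2 * a = w * (Module.finrank ℚ F * d) ∧
      ∏ᶠ q, (A ((cj q.out P₀).under (𝓞 F))).prod ^ m q = (p : ℂ) ^ (expo F.fixingSubgroup * a)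

variable {F : SubFld ℚ} {n : ℕ}

/-- There is no balanced isotropic family of cardinality `d` of Frobenius eigenvalues of the system
`T` at the places above `p`: isotropic means that `A 𝔭` and the numbers `q_𝔭 ^ w / z`, `z` in `A 𝔭`,
together are among the eigenvalues at `𝔭` (with multiplicities). -/
def NoIsotropicRelation (T : IntegralSystem F n) (w p d : ℕ) : Prop :=
  ∀ A : Ideal (𝓞 F) → Multiset ℂ,
    (∀ 𝔭 : Ideal (𝓞 F), 𝔭.IsMaximal → (p : 𝓞 F) ∈ 𝔭 → Multiset.card (A 𝔭) = d ∧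
      A 𝔭 + (A 𝔭).map (fun z => (Nat.card (𝓞 F ⧸ 𝔭) : ℂ) ^ w / z) ≤ (T.poly 𝔭).aroots ℂ) →
    ¬ Balanced F w p d A

/-- There is no balanced family of cardinality `d` of Frobenius eigenvalues of the system `T` at the
places above `p`. -/
def NoRelation (T : IntegralSystem F n) (w p d : ℕ) : Prop :=
  ∀ A : Ideal (𝓞 F) → Multiset ℂ,
    (∀ 𝔭 : Ideal (𝓞 F), 𝔭.IsMaximal → (p : 𝓞 F) ∈ 𝔭 → Multiset.card (A 𝔭) = d ∧
      A 𝔭 ≤ (T.poly 𝔭).aroots ℂ) → ¬ Balanced F w p d A

end Pool.Agent.Helper83.SM
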