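import Pool.Agent.Y126.SH.Rel

/-!
# Multiplicative relations between the roots of several integral polynomials

For almost all characteristics the relations come from complex relations.
-/

set_option autoImplicit false

namespace Pool.Agent.Helper83.SM

open Polynomial NumberField Pool.Agent.Y800 Pool.Agent.Y126.SH

/-- isotropic relations -/
theorem rel_iso {J : Type*} [Fintype J] (P : J → ℤ[X]) (hP : ∀ j, (P j).Monic) (s e : J → ℕ)
    (hs : ∀ j, s j ≠ 0) (he : ∀ j, 0 < e j) {c : ℕ} (hc : c ≠ 0) :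
    ∃ M : ℤ, M ≠ 0 ∧ ∀ (Ω : Type) [Field Ω] [IsAlgClosed Ω], (M : Ω) ≠ 0 →
      ∀ A : J → Multiset Ω,
        (∀ j, A j + (A j).map (fun z => (s j : Ω) / z) ≤ ((P j).map (Int.castRingHom Ω)).roots) →
        ∏ j, (A j).prod ^ e j = (c : Ω) →
        ∃ A' : J → Multiset ℂ, (∀ j, Multiset.card (A' j) = Multiset.card (A j) ∧
          A' j + (A' j).map (fun z => (s j : ℂ) / z) ≤ (P j).aroots ℂ) ∧
          ∏ j, (A' j).prod ^ e j = (c : ℂ) := by
  classical
  have hR0 : ∀ j, ∃ R : Multiset ZBar,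
    (P j).map (algebraMap ℤ ZBar) = (R.map fun r => X - C r).prod := fun j => exists_roots (hP j)
  choose R hR using hR0
  let E : Finset ZBar :=
    (Finset.univ.biUnion fun j =>
      ((R j ×ˢ R j).map fun x : ZBar × ZBar => x.1 * x.2 - ((s j : ℕ) : ZBar)).toFinset) ∪
    (Fintype.piFinset fun j => (R j).powerset.toFinset).image
      fun x : J → Multiset ZBar => (∏ j, (x j).prod ^ e j) - (c : ZBar)
  have hm : ∀ e : ZBar, ∃ m : ℤ, e ≠ 0 → (m ≠ 0 ∧ ∃ r, e * r = m) := by
    intro e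
    by_cases he : e = 0
    · exact ⟨0, fun h => absurd he h⟩
    · obtain ⟨m, r, h1, h2⟩ := exists_int_mul he
      exact ⟨m, fun _ => ⟨h1, r, h2⟩⟩
  choose m hm using hm
  refine ⟨c * ∏ e ∈ E.filter (fun e => e ≠ 0), m e, ?_, ?_⟩
  · apply mul_ne_zero
    · exact_mod_cast hc
    · rw [Finset.prod_ne_zero_iff]
      intro e he
      exact (hm e (Finset.mem_filter.1 he).2).1
  intro Ω _ _ hM A hA hprod
  obtain ⟨ψ, hψ⟩ := extend_gen (R := ℤ) (S := ZBar) (k := Ω) (Int.castRingHom Ω)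
  have hψi : ∀ i : ℤ, ψ (i : ZBar) = (i : Ω) := fun i => map_intCast ψ i
  rw [Int.cast_mul, Int.cast_natCast] at hM
  have hcΩ : (c : Ω) ≠ 0 := left_ne_zero_of_mul hM
  have hgood : ∀ e ∈ E, ψ e = 0 → e = 0 := by
    intro e he h0
    by_contra hne
    apply right_ne_zero_of_mul hM
    rw [Int.cast_prod]
    apply Finset.prod_eq_zero (Finset.mem_filter.2 ⟨he, hne⟩)
    obtain ⟨_, r, hr⟩ := hm e hne
    rw [← hψi, ← hr, map_mul, h0, zero_mul]
  have hex : ∀ j, ∃ T T' : Multiset ZBar, T + T' ≤ R j ∧ T.map ψ = A j ∧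
      T'.map ψ = (A j).map (fun z => (s j : Ω) / z) := by
    intro j
    have h1 := hA j
    rw [roots_map (hR j) ψ] at h1
    exact exists_add_le_map ψ h1
  choose T T' hTT hT hT' using hex
  have hTR : ∀ j, T j ≤ R j := fun j => (Multiset.le_add_right _ _).trans (hTT j)
  have hTR' : ∀ j, T' j ≤ R j := fun j => (Multiset.le_add_left _ _).trans (hTT j)
  have hne : ∀ j, ∀ t ∈ T j, ψ t ≠ 0 := by
    intro j t ht h0
    have h1 : (A j).prod = 0 := Multiset.prod_eq_zero (by
      rw [← h0, ← hT j]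
      exact Multiset.mem_map_of_mem ψ ht)
    apply hcΩ
    rw [← hprod]
    refine Finset.prod_eq_zero (Finset.mem_univ j) ?_
    rw [h1, zero_pow (he j).ne']
  have hrel : ∀ j, Multiset.Rel (fun t t' => t * t' = ((s j : ℕ) : ZBar)) (T j) (T' j) := by
    intro j
    have h1 : Multiset.Rel (fun x y => x = y) ((A j).map (fun z => (s j : Ω) / z))
        ((T' j).map ψ) := Multiset.rel_eq.2 (hT' j).symm
    rw [← hT j, Multiset.map_map, Multiset.rel_map] at h1
    refine h1.mono ?_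
    intro t ht t' ht' h2
    rw [Function.comp_apply, div_eq_iff (hne j t ht)] at h2
    rw [← sub_eq_zero]
    apply hgood
    · apply Finset.mem_union_left
      rw [Finset.mem_biUnion]
      refine ⟨j, Finset.mem_univ j, ?_⟩
      rw [Multiset.mem_toFinset]
      exact Multiset.mem_map.2 ⟨(t, t'), Multiset.mem_product.2
        ⟨Multiset.mem_of_le (hTR j) ht, Multiset.mem_of_le (hTR' j) ht'⟩, rfl⟩
    · rw [map_sub, map_mul, map_natCast, h2]
      ring
  have hTp : ∏ j, (T j).prod ^ e j = (c : ZBar) := by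
    rw [← sub_eq_zero]
    apply hgood
    · apply Finset.mem_union_right
      refine Finset.mem_image.2 ⟨T, ?_, rfl⟩
      rw [Fintype.mem_piFinset]
      intro j
      rw [Multiset.mem_toFinset]
      exact Multiset.mem_powerset.2 (hTR j)
    · rw [map_sub, map_natCast, ← hprod, map_prod, sub_eq_zero]
      refine Finset.prod_congr rfl fun j _ => ?_
      rw [map_pow, map_multiset_prod, hT]
  -- complex numbers
  obtain ⟨i, _⟩ := extend_gen (R := ℤ) (S := ZBar) (k := ℂ) (Int.castRingHom ℂ)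
  have hroots : ∀ j, (P j).aroots ℂ = (R j).map i := fun j => roots_map (hR j) i
  have hdual : ∀ j, ((T j).map i).map (fun z => ((s j : ℕ) : ℂ) / z) = (T' j).map i := by
    intro j
    have hs0 : ((s j : ℕ) : ℂ) ≠ 0 := by exact_mod_cast hs j
    apply Multiset.rel_eq.1
    rw [Multiset.map_map, Multiset.rel_map]
    refine (hrel j).mono ?_
    intro t _ t' _ h2
    have h3 : i t * i t' = ((s j : ℕ) : ℂ) := by rw [← map_mul, h2, map_natCast]
    rw [Function.comp_apply, div_eq_iff (left_ne_zero_of_mul (h3 ▸ hs0)), ← h3, mul_comm]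
  refine ⟨fun j => (T j).map i, fun j => ⟨?_, ?_⟩, ?_⟩
  · rw [Multiset.card_map, ← hT j, Multiset.card_map]
  · rw [hdual, ← Multiset.map_add, hroots]
    exact Multiset.map_le_map (hTT j)
  · rw [← map_natCast i c, ← hTp, map_prod]
    refine Finset.prod_congr rfl fun j _ => ?_
    rw [map_pow, map_multiset_prod]

/-- all relations -/
theorem rel_all {J : Type*} [Fintype J] (P : J → ℤ[X]) (hP : ∀ j, (P j).Monic) (e : J → ℕ)
    (c : ℕ) :
    ∃ M : ℤ, M ≠ 0 ∧ ∀ (Ω : Type) [Field Ω] [IsAlgClosed Ω], (M : Ω) ≠ 0 →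
      ∀ A : J → Multiset Ω,
        (∀ j, A j ≤ ((P j).map (Int.castRingHom Ω)).roots) →
        ∏ j, (A j).prod ^ e j = (c : Ω) →
        ∃ A' : J → Multiset ℂ, (∀ j, Multiset.card (A' j) = Multiset.card (A j) ∧
          A' j ≤ (P j).aroots ℂ) ∧ ∏ j, (A' j).prod ^ e j = (c : ℂ) := by
  classical
  have hR0 : ∀ j, ∃ R : Multiset ZBar,
    (P j).map (algebraMap ℤ ZBar) = (R.map fun r => X - C r).prod := fun j => exists_roots (hP j)
  choose R hR using hR0
  let E : Finset ZBar :=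
    (Fintype.piFinset fun j => (R j).powerset.toFinset).image
      fun x : J → Multiset ZBar => (∏ j, (x j).prod ^ e j) - (c : ZBar)
  have hm : ∀ e : ZBar, ∃ m : ℤ, e ≠ 0 → (m ≠ 0 ∧ ∃ r, e * r = m) := by
    intro e
    by_cases he : e = 0
    · exact ⟨0, fun h => absurd he h⟩
    · obtain ⟨m, r, h1, h2⟩ := exists_int_mul he
      exact ⟨m, fun _ => ⟨h1, r, h2⟩⟩
  choose m hm using hm
  refine ⟨∏ e ∈ E.filter (fun e => e ≠ 0), m e, ?_, ?_⟩
  · rw [Finset.prod_ne_zero_iff]
    intro e he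
    exact (hm e (Finset.mem_filter.1 he).2).1
  intro Ω _ _ hM A hA hprod
  obtain ⟨ψ, hψ⟩ := extend_gen (R := ℤ) (S := ZBar) (k := Ω) (Int.castRingHom Ω)
  have hψi : ∀ i : ℤ, ψ (i : ZBar) = (i : Ω) := fun i => map_intCast ψ i
  have hgood : ∀ e ∈ E, ψ e = 0 → e = 0 := by
    intro e he h0
    by_contra hne
    apply hM
    rw [Int.cast_prod]
    apply Finset.prod_eq_zero (Finset.mem_filter.2 ⟨he, hne⟩)
    obtain ⟨_, r, hr⟩ := hm e hne
    rw [← hψi, ← hr, map_mul, h0, zero_mul]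
  have hex : ∀ j, ∃ T ≤ R j, T.map ψ = A j := by
    intro j
    have h1 := hA j
    rw [roots_map (hR j) ψ] at h1
    exact exists_le_map ψ (A j) (R j) h1
  choose T hTR hT using hex
  have hTp : ∏ j, (T j).prod ^ e j = (c : ZBar) := by
    rw [← sub_eq_zero]
    apply hgood
    · refine Finset.mem_image.2 ⟨T, ?_, rfl⟩
      rw [Fintype.mem_piFinset]
      intro j
      rw [Multiset.mem_toFinset]
      exact Multiset.mem_powerset.2 (hTR j)
    · rw [map_sub, map_natCast, ← hprod, map_prod, sub_eq_zero]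
      refine Finset.prod_congr rfl fun j _ => ?_
      rw [map_pow, map_multiset_prod, hT]
  obtain ⟨i, _⟩ := extend_gen (R := ℤ) (S := ZBar) (k := ℂ) (Int.castRingHom ℂ)
  have hroots : ∀ j, (P j).aroots ℂ = (R j).map i := fun j => roots_map (hR j) i
  refine ⟨fun j => (T j).map i, fun j => ⟨?_, ?_⟩, ?_⟩
  · rw [Multiset.card_map, ← hT j, Multiset.card_map]
  · rw [hroots]
    exact Multiset.map_le_map (hTR j)
  · rw [← map_natCast i c, ← hTp, map_prod]
    refine Finset.prod_congr rfl fun j _ => ?_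
    rw [map_pow, map_multiset_prod]

end Pool.Agent.Helper83.SM
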