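import Pool.Agent.Helper83.SM.Frob
import Pool.Agent.Helper83.SM.Rel
import Pool.Agent.Helper83.SM.Def

/-!
# Stable subspaces and relations between Frobenius eigenvalues
-/

set_option autoImplicit false
set_option linter.unusedSectionVars false

namespace Pool.Agent.Helper83.SM

open Module Polynomial NumberField Pool.Agent.Y800 Pool.Agent.R390.SF
open Pool.Agent.Y126.SH (chi)

attribute [local instance] Subgroup.fintypeQuotientOfFiniteIndex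

variable {F : SubFld ℚ} [hF : FiniteDimensional ℚ F]

/-- the place of the coset `q` -/
noncomputable abbrev pla (P₀ : Ideal ZBar) (q : GQ ⧸ F.fixingSubgroup) : Ideal (𝓞 F) :=
  (cj q.out P₀).under (𝓞 F)

theorem pla_max {P₀ : Ideal ZBar} (hP₀ : P₀.IsMaximal) (q : GQ ⧸ F.fixingSubgroup) :
    (pla P₀ q).IsMaximal := under_max (cj_max hP₀)

theorem pla_mem {p : ℕ} {P₀ : Ideal ZBar} (hpP₀ : (p : ZBar) ∈ P₀) (q : GQ ⧸ F.fixingSubgroup) :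
    (p : 𝓞 F) ∈ pla P₀ q := by
  rw [mem_under, map_natCast]
  exact cj_nat.2 hpP₀

/-- every place above `p` occurs -/
theorem exists_pla {p : ℕ} (hp : p.Prime) {P₀ : Ideal ZBar} (hP₀ : P₀.IsMaximal)
    (hpP₀ : (p : ZBar) ∈ P₀) {𝔭 : Ideal (𝓞 F)} (h𝔭 : 𝔭.IsMaximal) (hp𝔭 : (p : 𝓞 F) ∈ 𝔭) :
    ∃ q : GQ ⧸ F.fixingSubgroup, pla P₀ q = 𝔭 := by
  obtain ⟨Pl, s, hd⟩ := exists_data (F := F) hp
  obtain ⟨h1, h2, h3, _⟩ := hd 𝔭 h𝔭 hp𝔭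
  obtain ⟨x, hx⟩ := exists_cj hp hP₀ hpP₀ h1 h2
  refine ⟨((x : GQ) : GQ ⧸ F.fixingSubgroup), ?_⟩
  rw [pla, under_out, ← hx, h3]

/-- The exponents: `m q = N / f`. -/
def Expo (F : SubFld ℚ) (p : ℕ) (P₀ : Ideal ZBar) (m : GQ ⧸ F.fixingSubgroup → ℕ) : Prop :=
  ∀ q, Nat.card (𝓞 F ⧸ (cj q.out P₀).under (𝓞 F)) ^ m q = p ^ expo F.fixingSubgroup

theorem Expo.pos {p : ℕ} (hp : p.Prime) {P₀ : Ideal ZBar} {m : GQ ⧸ F.fixingSubgroup → ℕ}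
    (hm : Expo F p P₀ m) (q : GQ ⧸ F.fixingSubgroup) : 0 < m q := by
  rcases Nat.eq_zero_or_pos (m q) with h0 | h0
  · exfalso
    have h1 := hm q
    rw [h0, pow_zero] at h1
    have h2 : 1 < p ^ expo F.fixingSubgroup := Nat.one_lt_pow expo_pos.ne' hp.one_lt
    omega
  · exact h0

/-- the Frobenius elements of the cosets -/
theorem zz_data {p : ℕ} (hp : p.Prime) {P₀ : Ideal ZBar} (hP₀ : P₀.IsMaximal)
    (hpP₀ : (p : ZBar) ∈ P₀) {σ : GQ} (hσ : IsGeomFrob p P₀ σ)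
    {Pl : Ideal (𝓞 F) → Ideal ZBar} {s : Ideal (𝓞 F) → F.fixingSubgroup}
    (hd : ∀ 𝔭 : Ideal (𝓞 F), 𝔭.IsMaximal → (p : 𝓞 F) ∈ 𝔭 →
      (Pl 𝔭).IsMaximal ∧ (p : ZBar) ∈ Pl 𝔭 ∧ (Pl 𝔭).under (𝓞 F) = 𝔭 ∧
        IsGeomFrob (resCard F (Pl 𝔭)) (Pl 𝔭) (s 𝔭)) :
    ∃ m : GQ ⧸ F.fixingSubgroup → ℕ, Expo F p P₀ m ∧ ∀ q, ∃ h τ : F.fixingSubgroup,
      InInertia (cj q.out P₀) τ ∧ zz σ q = (h⁻¹ * s (pla P₀ q) * h) ^ m q * τ := by
  have key : ∀ q : GQ ⧸ F.fixingSubgroup, ∃ m : ℕ,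
      Nat.card (𝓞 F ⧸ (cj q.out P₀).under (𝓞 F)) ^ m = p ^ expo F.fixingSubgroup ∧
      ∃ h τ : F.fixingSubgroup,
        InInertia (cj q.out P₀) τ ∧ zz σ q = (h⁻¹ * s (pla P₀ q) * h) ^ m * τ := by
    intro q
    obtain ⟨h1, h2, h3, h4⟩ := hd (pla P₀ q) (pla_max hP₀ q) (pla_mem hpP₀ q)
    obtain ⟨h, hh⟩ := exists_cjF h1 (cj_max (x := q.out) hP₀) h3
    have h5 := cj_frob (x := (h : GQ)) h4
    have h6 : resCard F (Pl (pla P₀ q)) = resCard F (cj q.out P₀) := by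
      unfold resCard
      rw [h3]
    rw [← hh, h6] at h5
    obtain ⟨f, m, hf, hfm, τ, hτ, hz⟩ := zz_eq hp hP₀ hpP₀ hσ q (s := h⁻¹ * s (pla P₀ q) * h) h5
    refine ⟨m, ?_, h, τ, hτ, hz⟩
    have h7 : Nat.card (𝓞 F ⧸ (cj q.out P₀).under (𝓞 F)) = p ^ f := hf
    rw [h7, ← pow_mul, hfm]
  choose m hm hm' using key
  exact ⟨m, hm, hm'⟩

/-- the exponents are determined -/
theorem Expo.unique {p : ℕ} (hp : p.Prime) {P₀ : Ideal ZBar} {m m' : GQ ⧸ F.fixingSubgroup → ℕ}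
    (hm : Expo F p P₀ m) (hm' : Expo F p P₀ m') : m = m' := by
  funext q
  have h1 := (hm q).trans (hm' q).symm
  have h2 : 1 < Nat.card (𝓞 F ⧸ (cj q.out P₀).under (𝓞 F)) := by
    by_contra hle
    have h3 := hm q
    have h4 : 1 < p ^ expo F.fixingSubgroup := Nat.one_lt_pow expo_pos.ne' hp.one_lt
    rcases (by omega : Nat.card (𝓞 F ⧸ (cj q.out P₀).under (𝓞 F)) = 0 ∨
      Nat.card (𝓞 F ⧸ (cj q.out P₀).under (𝓞 F)) = 1) with h5 | h5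
    · rw [h5, zero_pow (hm.pos hp q).ne'] at h3
      omega
    · rw [h5, one_pow] at h3
      omega
  exact Nat.pow_right_injective h2 h1

section det

variable {n : ℕ} {S : Finset ℕ} {w : ℕ} {T : IntegralSystem F n} {ℓ : ℕ} [hℓ : Fact ℓ.Prime]
  {k : Type} [Field k] [TopologicalSpace k] [IsTopologicalRing k] (ψ : ℤ_[ℓ] →+* k)

/-- **The relation between the determinants of the Frobenius elements on a stable subspace.** -/
theorem det_relation (hT : T.PureSystem S w) {U : Submodule k (Fin n → k)}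
    (hU : IsStable (rep ψ T) U) (hW : Wt ψ w (finrank k U) (detChar (rep ψ T) U hU))
    {p : ℕ} (hp : p.Prime) (hpℓ : ℓ ≠ p) {P₀ : Ideal ZBar} (hP₀ : P₀.IsMaximal)
    (hpP₀ : (p : ZBar) ∈ P₀) {m : GQ ⧸ F.fixingSubgroup → ℕ} (hm : Expo F p P₀ m)
    {Pl : Ideal (𝓞 F) → Ideal ZBar} {s : Ideal (𝓞 F) → F.fixingSubgroup}
    (hd : ∀ 𝔭 : Ideal (𝓞 F), 𝔭.IsMaximal → (p : 𝓞 F) ∈ 𝔭 →
      (Pl 𝔭).IsMaximal ∧ (p : ZBar) ∈ Pl 𝔭 ∧ (Pl 𝔭).under (𝓞 F) = 𝔭 ∧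
        IsGeomFrob (resCard F (Pl 𝔭)) (Pl 𝔭) (s 𝔭)) :
    ∃ a : ℕ, 2 * a = w * (finrank ℚ F * finrank k U) ∧
      ∏ q : GQ ⧸ F.fixingSubgroup, (detChar (rep ψ T) U hU (s (pla P₀ q)) : k) ^ m q =
        (p : k) ^ (expo F.fixingSubgroup * a) := by
  obtain ⟨P', σ', hP', hpP', hσ'⟩ := exists_geom hp
  obtain ⟨x, rfl⟩ := exists_cj hp hP' hpP' hP₀ hpP₀
  have hσ := cj_frob (x := x) hσ'
  obtain ⟨a, ha, ha'⟩ := hW
  refine ⟨a, by rw [← ha]; ring, ?_⟩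
  rw [← ha' p hp hpℓ (cj x P') hP₀ hpP₀ _ hσ]
  obtain ⟨m', hm', hz⟩ := zz_data hp hP₀ hpP₀ hσ hd
  obtain rfl := hm.unique hp hm'
  refine Finset.prod_congr rfl fun q _ => ?_
  obtain ⟨h, τ, hτ, hz⟩ := hz q
  rw [hz, map_mul, det_inertia ψ hT hU hp hpℓ (cj_max hP₀) (cj_nat.2 hpP₀) hτ, mul_one, map_pow,
    Units.val_pow_eq_pow_val]
  congr 2
  rw [map_mul, map_mul, map_inv, mul_comm, ← mul_assoc, mul_inv_cancel, one_mul]

/-- the characteristic polynomial of a Frobenius element at a place -/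
theorem charpoly_place (hT : T.GoodSystem S w) {p : ℕ} (hp : p.Prime) (hpS : p ∉ S) (hpℓ : ℓ ≠ p)
    {𝔭 : Ideal (𝓞 F)} (h𝔭 : 𝔭.IsMaximal) (hp𝔭 : (p : 𝓞 F) ∈ 𝔭) {P : Ideal ZBar}
    (hP : P.IsMaximal) (hP𝔭 : P.under (𝓞 F) = 𝔭) {s : F.fixingSubgroup}
    (hs : IsGeomFrob (resCard F P) P s) :
    (lin (rep ψ T) s).charpoly = (T.poly 𝔭).map (Int.castRingHom k) := by
  have h1 : resCard F P = Nat.card (𝓞 F ⧸ 𝔭) := by
    unfold resCard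
    rw [hP𝔭]
  rw [h1] at hs
  have h4 := (hT.good p hp hpS _ h𝔭 hp𝔭).frobenius ℓ hpℓ P hP hP𝔭 s hs
  rw [charpoly_lin, rep_val, Matrix.charpoly_map, h4, Polynomial.map_map]
  congr 1
  exact RingHom.ext_int _ _

theorem roots_place (hT : T.GoodSystem S w) {p : ℕ} (hp : p.Prime) (hpS : p ∉ S) (hpℓ : ℓ ≠ p)
    {𝔭 : Ideal (𝓞 F)} (h𝔭 : 𝔭.IsMaximal) (hp𝔭 : (p : 𝓞 F) ∈ 𝔭) {P : Ideal ZBar}
    (hP : P.IsMaximal) (hP𝔭 : P.under (𝓞 F) = 𝔭) {s : F.fixingSubgroup}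
    (hs : IsGeomFrob (resCard F P) P s) :
    (lin (rep ψ T) s).charpoly.aroots (AlgebraicClosure k) =
      ((T.poly 𝔭).map (Int.castRingHom (AlgebraicClosure k))).roots := by
  rw [charpoly_place ψ hT hp hpS hpℓ h𝔭 hp𝔭 hP hP𝔭 hs, aroots_def, Polynomial.map_map]
  congr 2

/-- the eigenvalues on an isotropic stable subspace -/
theorem roots_iso (hT : T.GoodSystem S w) {J : Matrix (Fin n) (Fin n) ℤ_[ℓ]}
    (hJ : T.IsPolarization w ℓ J) (hJψ : ψ J.det ≠ 0) {U : Submodule k (Fin n → k)}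
    (hU : IsStable (rep ψ T) U)
    (hiso : ∀ x ∈ U, ∀ y ∈ U, dotProduct x ((J.map ψ).mulVec y) = 0)
    {p : ℕ} (hp : p.Prime) (hpS : p ∉ S) (hpℓ : ℓ ≠ p)
    {𝔭 : Ideal (𝓞 F)} (h𝔭 : 𝔭.IsMaximal) (hp𝔭 : (p : 𝓞 F) ∈ 𝔭) {P : Ideal ZBar}
    (hP : P.IsMaximal) (hP𝔭 : P.under (𝓞 F) = 𝔭) {s : F.fixingSubgroup}
    (hs : IsGeomFrob (resCard F P) P s) :
    ((lin (rep ψ T) s).restrict (hU s)).charpoly.aroots (AlgebraicClosure k) +
      (((lin (rep ψ T) s).restrict (hU s)).charpoly.aroots (AlgebraicClosure k)).map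
        (fun z => ((Nat.card (𝓞 F ⧸ 𝔭) ^ w : ℕ) : AlgebraicClosure k) / z) ≤
        ((T.poly 𝔭).map (Int.castRingHom (AlgebraicClosure k))).roots := by
  classical
  let B := Matrix.toBilin' (J.map ψ)
  have hpP : (p : ZBar) ∈ P := by
    rw [← hP𝔭, mem_under, map_natCast] at hp𝔭
    exact hp𝔭
  obtain ⟨f, hf, hf'⟩ := resCard_pow (F := F) hp hP hpP
  have h1 : resCard F P = Nat.card (𝓞 F ⧸ 𝔭) := by
    unfold resCard
    rw [hP𝔭]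
  have hchi : ψ (chi ℓ (s : GQ) : ℤ_[ℓ]) * ((Nat.card (𝓞 F ⧸ 𝔭) : ℕ) : k) = 1 := by
    rw [← h1, hf', Nat.cast_pow]
    exact chik_geom ψ hp hpℓ hP hpP (by rw [← hf']; exact hs)
  have hq0 : ((Nat.card (𝓞 F ⧸ 𝔭) : ℕ) : k) ≠ 0 := right_ne_zero_of_mul_eq_one hchi
  have hs0 : ((Nat.card (𝓞 F ⧸ 𝔭) ^ w : ℕ) : k) ≠ 0 := by
    rw [Nat.cast_pow]
    exact pow_ne_zero _ hq0
  have hB : ∀ x y, B (lin (rep ψ T) s x) (lin (rep ψ T) s y) =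
      ((Nat.card (𝓞 F ⧸ 𝔭) ^ w : ℕ) : k) * B x y := by
    intro x y
    have h1 := congrArg (fun X => Matrix.map X ψ) (hJ.equivariant s)
    have h2 : (ψ (chi ℓ (s : GQ) : ℤ_[ℓ])) ^ w •
        ((rep ψ T s : Matrix (Fin n) (Fin n) k).transpose *
        J.map ψ * (rep ψ T s : Matrix (Fin n) (Fin n) k)) = J.map ψ := by
      refine Eq.trans ?_ h1
      have h3 : ∀ (c : ℤ_[ℓ]) (X : Matrix (Fin n) (Fin n) ℤ_[ℓ]), (c • X).map ψ = ψ c • X.map ψ := by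
        intro c X
        ext i j
        simp
      show _ = ((chi ℓ (s : GQ) : ℤ_[ℓ]) ^ w •
        ((T.rho ℓ s : Matrix (Fin n) (Fin n) ℤ_[ℓ]).transpose * J * (T.rho ℓ s))).map ψ
      rw [h3, map_pow, Matrix.map_mul, Matrix.map_mul, rep_val, Matrix.transpose_map]
    have h4 : B (lin (rep ψ T) s x) (lin (rep ψ T) s y) = Matrix.toBilin'
        ((rep ψ T s : Matrix (Fin n) (Fin n) k).transpose * J.map ψ *
          (rep ψ T s : Matrix (Fin n) (Fin n) k)) x y := by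
      rw [← Matrix.toBilin'_comp]
      rfl
    have h5 : B x y = (ψ (chi ℓ (s : GQ) : ℤ_[ℓ])) ^ w * B (lin (rep ψ T) s x)
        (lin (rep ψ T) s y) := by
      rw [h4]
      conv_lhs => rw [show B = Matrix.toBilin' (J.map ψ) from rfl, ← h2, map_smul]
      rfl
    rw [h5, ← mul_assoc, Nat.cast_pow, ← mul_pow, mul_comm _ (ψ (chi ℓ (s : GQ) : ℤ_[ℓ])), hchi,
      one_pow, one_mul]
  have hnd : B.Nondegenerate := by
    apply LinearMap.BilinForm.nondegenerate_toBilin'_of_det_ne_zero'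
    have : (J.map ψ).det = ψ J.det := (RingHom.map_det ψ J).symm
    rwa [this]
  have hUs : U ≤ U.comap (lin (rep ψ T) s) := fun u hu => hU s u hu
  obtain ⟨h1, h2, h3⟩ := Pool.Agent.Y126.SH.roots_isotropic (Ω := AlgebraicClosure k) hnd hs0 hB
    hUs (by
    intro y hy x hx
    show B x y = 0
    rw [Matrix.toBilin'_apply']
    exact hiso x hx y hy)
  rw [roots_place ψ hT hp hpS hpℓ h𝔭 hp𝔭 hP hP𝔭 hs, map_natCast] at h1
  exact h1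

end det

end Pool.Agent.Helper83.SM
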