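import Pool.Agent.Helper83.SM.Gen
import Mathlib.RingTheory.Polynomial.Resultant.Basic
import Mathlib.LinearAlgebra.Matrix.Charpoly.Univ
import Mathlib.Topology.Algebra.MvPolynomial

/-!
# Separable Frobenius polynomials over `ℚ`
-/

set_option autoImplicit false
set_option linter.unusedSectionVars false

namespace Pool.Agent.Helper83.SM

open Module Polynomial NumberField Pool.Agent.Y800 Pool.Agent.R390.SF
open Pool.Agent.Y126.SH (chi exists_reps)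

/-- the resultant of a polynomial and its derivative -/
noncomputable def dsc {R : Type*} [CommRing R] (n : ℕ) (f : R[X]) : R :=
  resultant f (derivative f) n (n - 1)

theorem dsc_map {R S : Type*} [CommRing R] [CommRing S] (φ : R →+* S) (n : ℕ) (f : R[X]) :
    dsc n (f.map φ) = φ (dsc n f) := by
  rw [dsc, derivative_map, resultant_map_map, dsc]

theorem dsc_ne_zero {n : ℕ} {f : ℂ[X]} (hf : f.Monic) (hn : f.natDegree = n) :
    dsc n f ≠ 0 ↔ f.roots.Nodup := by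
  have h1 : dsc n f = (f.roots.map (derivative f).eval).prod := by
    have h2 := resultant_eq_prod_eval f (derivative f) (n - 1)
      (by rw [← hn]; exact natDegree_derivative_le f) (IsAlgClosed.splits f)
    rw [hn, hf.leadingCoeff, one_pow, one_mul] at h2
    exact h2
  rw [h1, Multiset.nodup_iff_count_le_one]
  constructor
  · intro h a
    by_contra hlt
    rw [count_roots, not_le, one_lt_rootMultiplicity_iff_isRoot hf.ne_zero] at hlt
    apply h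
    apply Multiset.prod_eq_zero
    rw [Multiset.mem_map]
    exact ⟨a, (mem_roots hf.ne_zero).2 hlt.1, hlt.2⟩
  · intro h h0
    rw [Multiset.prod_eq_zero_iff, Multiset.mem_map] at h0
    obtain ⟨a, ha, ha'⟩ := h0
    have h2 := h a
    rw [count_roots] at h2
    have h3 := (one_lt_rootMultiplicity_iff_isRoot hf.ne_zero).2
      ⟨(mem_roots hf.ne_zero).1 ha, ha'⟩
    omega

/-- a polynomial function of a matrix with integral coefficients is continuous -/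
theorem continuous_dsc {R : Type*} [CommRing R] [TopologicalSpace R] [IsTopologicalRing R]
    (n : ℕ) : Continuous fun M : Matrix (Fin n) (Fin n) R => dsc n M.charpoly := by
  have h1 : (fun M : Matrix (Fin n) (Fin n) R => dsc n M.charpoly) = fun M =>
      MvPolynomial.eval (fun ij : Fin n × Fin n => M ij.1 ij.2)
        (MvPolynomial.map (Int.castRingHom R) (dsc n (Matrix.charpoly.univ ℤ (Fin n)))) := by
    funext M
    have h2 := Matrix.charpoly.univ_map_eval₂Hom (Fin n) (Int.castRingHom R)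
      (fun ij : Fin n × Fin n => M ij.1 ij.2)
    rw [MvPolynomial.eval_map]
    have h3 : (Matrix.of (Function.curry fun ij : Fin n × Fin n => M ij.1 ij.2)) = M := rfl
    rw [h3] at h2
    rw [← h2, dsc_map]
    rfl
  rw [h1]
  refine (MvPolynomial.continuous_eval _).comp ?_
  exact continuous_pi fun ij => continuous_id.matrix_elem ij.1 ij.2

variable {F : SubFld ℚ} [hF : FiniteDimensional ℚ F] {n : ℕ} {S : Finset ℕ} {w : ℕ}
  {T : IntegralSystem F n}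

/-- the Frobenius polynomial at `𝔭` has no repeated roots -/
theorem nodup_iff_dsc (hT : T.GoodSystem S w) {p : ℕ} (hp : p.Prime) (hpS : p ∉ S)
    {𝔭 : Ideal (𝓞 F)} (h𝔭 : 𝔭.IsMaximal) (hp𝔭 : (p : 𝓞 F) ∈ 𝔭) :
    ((T.poly 𝔭).aroots ℂ).Nodup ↔ dsc n (T.poly 𝔭) ≠ 0 := by
  have hg := hT.good p hp hpS 𝔭 h𝔭 hp𝔭
  rw [aroots, ← dsc_ne_zero (n := n) (hg.monic.map _) (by
    rw [hg.monic.natDegree_map, hg.natDegree]), dsc_map]
  have h1 : (algebraMap ℤ ℂ) (dsc n (T.poly 𝔭)) = ((dsc n (T.poly 𝔭) : ℤ) : ℂ) := rfl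
  rw [h1, Int.cast_ne_zero]

/-- **If some Frobenius polynomial at a place of degree one is separable then so are infinitely many.** -/
theorem exists_nodup (hT : T.GoodSystem S w) {p₀ : ℕ} (hp₀ : p₀.Prime) (hp₀S : p₀ ∉ S)
    {P₀ : Ideal ZBar} (hP₀ : P₀.IsMaximal) (hpP₀ : (p₀ : ZBar) ∈ P₀) {σ₀ : F.fixingSubgroup}
    (hσ₀ : IsGeomFrob p₀ P₀ σ₀) (hnd : ((T.poly (P₀.under (𝓞 F))).aroots ℂ).Nodup)
    (E : Finset ℕ) :
    ∃ p : ℕ, p.Prime ∧ p ∉ S ∧ p ∉ E ∧ ∃ P : Ideal ZBar, P.IsMaximal ∧ (p : ZBar) ∈ P ∧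
      ((T.poly (P.under (𝓞 F))).aroots ℂ).Nodup := by
  obtain ⟨ℓ, hℓ, hℓp⟩ : ∃ ℓ : ℕ, ℓ.Prime ∧ ℓ ≠ p₀ := by
    by_cases h2 : p₀ = 2
    · exact ⟨3, Nat.prime_three, by omega⟩
    · exact ⟨2, Nat.prime_two, fun h => h2 h.symm⟩
  have : Fact ℓ.Prime := ⟨hℓ⟩
  have hval : ∀ p : ℕ, p.Prime → p ∉ S → ℓ ≠ p → ∀ P : Ideal ZBar, P.IsMaximal →
      (p : ZBar) ∈ P → ∀ σ : F.fixingSubgroup, IsGeomFrob p P σ →
      dsc n (T.rho ℓ σ : Matrix (Fin n) (Fin n) ℤ_[ℓ]).charpoly =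
        ((dsc n (T.poly (P.under (𝓞 F))) : ℤ) : ℤ_[ℓ]) := by
    intro p hp hpS hpℓ P hP hpP σ hσ
    have hm : (P.under (𝓞 F)).IsMaximal := Ideal.IsMaximal.under (𝓞 F) P
    have hpm : (p : 𝓞 F) ∈ P.under (𝓞 F) := by
      rw [mem_under, map_natCast]
      exact hpP
    have h4 := (hT.good p hp hpS _ hm hpm).frobenius ℓ hpℓ P hP rfl σ (by
      have h5 : Nat.card (𝓞 F ⧸ P.under (𝓞 F)) = p := resCard_one hp hP hpP σ.2 hσ
      rw [h5]
      exact hσ)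
    rw [h4, dsc_map]
    rfl
  have hund : ∀ {p : ℕ} {P : Ideal ZBar}, P.IsMaximal → (p : ZBar) ∈ P →
      (P.under (𝓞 F)).IsMaximal ∧ (p : 𝓞 F) ∈ P.under (𝓞 F) := by
    intro p P hP hpP
    refine ⟨Ideal.IsMaximal.under (𝓞 F) P, ?_⟩
    rw [mem_under, map_natCast]
    exact hpP
  by_contra hcon
  have hC : IsClosed {g : F.fixingSubgroup |
      dsc n (T.rho ℓ g : Matrix (Fin n) (Fin n) ℤ_[ℓ]).charpoly = 0} :=
    isClosed_singleton.preimage ((continuous_dsc n).comp (hT.continuous ℓ))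
  have h1 := closed_univ' _ hC (S ∪ E ∪ {ℓ}) (fun p hp hpS P hP hpP σ hσ => by
    simp only [Finset.mem_union, Finset.mem_singleton, not_or] at hpS
    by_contra hne
    apply hcon
    refine ⟨p, hp, hpS.1.1, hpS.1.2, P, hP, hpP, ?_⟩
    rw [nodup_iff_dsc hT hp hpS.1.1 (hund hP hpP).1 (hund hP hpP).2]
    intro h0
    apply hne
    show dsc n (T.rho ℓ σ : Matrix (Fin n) (Fin n) ℤ_[ℓ]).charpoly = 0
    rw [hval p hp hpS.1.1 (fun h => hpS.2 h.symm) P hP hpP σ hσ, h0, Int.cast_zero]) σ₀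
  have h2 : dsc n (T.rho ℓ σ₀ : Matrix (Fin n) (Fin n) ℤ_[ℓ]).charpoly = 0 := h1
  rw [hval p₀ hp₀ hp₀S hℓp P₀ hP₀ hpP₀ σ₀ hσ₀, Int.cast_eq_zero] at h2
  exact (nodup_iff_dsc hT hp₀ hp₀S (hund hP₀ hpP₀).1 (hund hP₀ hpP₀).2).1 hnd h2

section one

variable (h1F : finrank ℚ F = 1)

include h1F

theorem fixing_top : F.fixingSubgroup = ⊤ := by
  have h1 : F = ⊥ := IntermediateField.finrank_eq_one_iff.1 h1F
  rw [h1, IntermediateField.fixingSubgroup_bot]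

theorem expo_one : expo F.fixingSubgroup = 1 := by
  rw [expo, fixing_top h1F, Subgroup.normalCore_eq_self, Subgroup.index_top]

theorem subsingleton_quot : Subsingleton (GQ ⧸ F.fixingSubgroup) := by
  rw [fixing_top h1F]
  exact QuotientGroup.subsingleton_quotient_top

/-- `F = ℚ`: a balanced family -/
theorem balanced_one {p d : ℕ} (hp : p.Prime) {A : Ideal (𝓞 F) → Multiset ℂ}
    (hA : Balanced F w p d A) : ∃ 𝔭 : Ideal (𝓞 F), 𝔭.IsMaximal ∧ (p : 𝓞 F) ∈ 𝔭 ∧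
      Nat.card (𝓞 F ⧸ 𝔭) = p ∧ ∃ a : ℕ, 2 * a = w * d ∧ (A 𝔭).prod = (p : ℂ) ^ a := by
  obtain ⟨P₀, hP₀, hpP₀, m, a, hm, ha, hprod⟩ := hA
  have hs := subsingleton_quot h1F
  let q : GQ ⧸ F.fixingSubgroup := ((1 : GQ) : GQ ⧸ F.fixingSubgroup)
  refine ⟨(cj q.out P₀).under (𝓞 F), under_max (cj_max hP₀), ?_, ?_, a, ?_, ?_⟩
  · rw [mem_under, map_natCast]
    exact cj_nat.2 hpP₀
  · have h1 := hm q
    rw [expo_one h1F, pow_one] at h1
    have h2 : m q = 1 := (Nat.Prime.eq_one_of_pow (h1 ▸ hp))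
    rw [h2, pow_one] at h1
    exact h1
  · rw [ha, h1F, one_mul]
  · have h1 := hm q
    rw [expo_one h1F, pow_one] at h1
    have h2 : m q = 1 := (Nat.Prime.eq_one_of_pow (h1 ▸ hp))
    rw [finprod_eq_single _ q (fun x hx => absurd (Subsingleton.elim x q) hx), h2, pow_one,
      expo_one h1F, one_mul] at hprod
    exact hprod

/-- **Separable polynomials of small degree have no isotropic relation.** -/
theorem noIso_of_nodup {p : ℕ} (hp : p.Prime) (hsm : n ≤ 5 ∨ (Odd w ∧ n ≤ 7))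
    (hnd : ∀ 𝔭 : Ideal (𝓞 F), 𝔭.IsMaximal → (p : 𝓞 F) ∈ 𝔭 → ((T.poly 𝔭).aroots ℂ).Nodup)
    {d : ℕ} (hd : 0 < d) (hdn : 2 * d ≤ n) : NoIsotropicRelation T w p d := by
  intro A hA hbal
  obtain ⟨𝔭, h𝔭, hp𝔭, hcard, a, ha, hprod⟩ := balanced_one h1F hp hbal
  obtain ⟨h1, h2⟩ := hA 𝔭 h𝔭 hp𝔭
  have h3 : (A 𝔭 + (A 𝔭).map (fun z => (Nat.card (𝓞 F ⧸ 𝔭) : ℂ) ^ w / z)).Nodup :=
    Multiset.nodup_of_le h2 (hnd 𝔭 h𝔭 hp𝔭)
  rw [Multiset.nodup_add] at h3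
  obtain ⟨-, -, h3⟩ := h3
  have hp0 : (p : ℂ) ≠ 0 := by exact_mod_cast hp.ne_zero
  have hd4 : d = 1 ∨ d = 2 ∨ (d = 3 ∧ Odd w) := by
    rcases hsm with h | ⟨h, h'⟩
    · omega
    · have : d = 1 ∨ d = 2 ∨ d = 3 := by omega
      rcases this with h4 | h4 | h4
      · exact Or.inl h4
      · exact Or.inr (Or.inl h4)
      · exact Or.inr (Or.inr ⟨h4, h⟩)
  rcases hd4 with rfl | rfl | ⟨rfl, hw⟩
  · obtain ⟨α, hα⟩ := Multiset.card_eq_one.1 h1
    rw [hα] at h3 hprod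
    rw [Multiset.prod_singleton] at hprod
    rw [Multiset.map_singleton, Multiset.singleton_disjoint, Multiset.mem_singleton] at h3
    apply h3
    rw [hcard, hprod, eq_div_iff (pow_ne_zero _ hp0), ← pow_add]
    congr 1
    omega
  · obtain ⟨α, β, hα⟩ := Multiset.card_eq_two.1 h1
    rw [hα] at h3 hprod
    have h4 : a = w := by omega
    have h5 : α * β = (p : ℂ) ^ w := by
      rw [← h4, ← hprod]
      simp
    have hβ : β ≠ 0 := by
      rintro rfl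
      rw [mul_zero] at h5
      exact pow_ne_zero _ hp0 h5.symm
    have hmem : α ∈ Multiset.map (fun z => (Nat.card (𝓞 F ⧸ 𝔭) : ℂ) ^ w / z) {α, β} := by
      rw [Multiset.mem_map]
      exact ⟨β, by simp, by rw [hcard, div_eq_iff hβ, h5]⟩
    exact (Multiset.disjoint_left.1 h3) (by simp) hmem
  · obtain ⟨r, hr⟩ := hw
    omega

/-- a place in the rational case -/
theorem under_one {p : ℕ} (hp : p.Prime) {P : Ideal ZBar} (hP : P.IsMaximal)
    (hpP : (p : ZBar) ∈ P) {𝔭 : Ideal (𝓞 F)} (h𝔭 : 𝔭.IsMaximal) (hp𝔭 : (p : 𝓞 F) ∈ 𝔭) :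
    𝔭 = P.under (𝓞 F) := by
  obtain ⟨q, hq⟩ := exists_pla hp hP hpP h𝔭 hp𝔭
  have h1 : ∀ x : GQ, x ∈ F.fixingSubgroup := fun x => by rw [fixing_top h1F]; trivial
  rw [← hq]
  exact under_cj (h1 _) P

/-- **One separable Frobenius polynomial gives infinitely many**, over `ℚ`. -/
theorem exists_nodup_one (hT : T.GoodSystem S w) {p₀ : ℕ} (hp₀ : p₀.Prime) (hp₀S : p₀ ∉ S)
    (hnd : ∀ 𝔭 : Ideal (𝓞 F), 𝔭.IsMaximal → (p₀ : 𝓞 F) ∈ 𝔭 → ((T.poly 𝔭).aroots ℂ).Nodup)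
    (ℓ : ℕ) : ∃ p : ℕ, p.Prime ∧ p ∉ S ∧ p ≠ ℓ ∧
      ∀ 𝔭 : Ideal (𝓞 F), 𝔭.IsMaximal → (p : 𝓞 F) ∈ 𝔭 → ((T.poly 𝔭).aroots ℂ).Nodup := by
  obtain ⟨P₀, σ₀, hP₀, hpP₀, hσ₀⟩ := exists_geom hp₀
  obtain ⟨p, hp, hpS, hpE, P, hP, hpP, h⟩ := exists_nodup hT hp₀ hp₀S hP₀ hpP₀
    (σ₀ := ⟨σ₀, by rw [fixing_top h1F]; trivial⟩) hσ₀
    (hnd _ (under_max hP₀) (by rw [mem_under, map_natCast]; exact hpP₀)) {ℓ}
  refine ⟨p, hp, hpS, fun h' => hpE (Finset.mem_singleton.2 h'), fun 𝔭 h𝔭 hp𝔭 => ?_⟩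
  rw [under_one h1F hp hP hpP h𝔭 hp𝔭]
  exact h

end one

end Pool.Agent.Helper83.SM
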