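import Pool.Agent.Helper83.SM.Excl

/-!
# Unpolarized systems without relations between the Frobenius eigenvalues
-/

set_option autoImplicit false
set_option linter.unusedSectionVars false

namespace Pool.Agent.Helper83.SM

open Module Polynomial NumberField Pool.Agent.Y800 Pool.Agent.R390.SF
open Pool.Agent.Y126.SH (chi)

attribute [local instance] Subgroup.fintypeQuotientOfFiniteIndex

variable {F : SubFld ℚ} [hF : FiniteDimensional ℚ F] {n : ℕ} {S : Finset ℕ} {w : ℕ}
  {T : IntegralSystem F n}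

section use

variable {ℓ : ℕ} [hℓ : Fact ℓ.Prime] {k : Type} [Field k] [TopologicalSpace k]
  [IsTopologicalRing k] (ψ : ℤ_[ℓ] →+* k)

/-- a stable subspace of codimension `d` is excluded -/
theorem no_quot (hT : T.PureSystem S w)
    (hW : ∀ (U : Submodule k (Fin n → k)) (hU : IsStable (rep ψ T) U),
      Wt ψ w (finrank k U) (detChar (rep ψ T) U hU)) {U : Submodule k (Fin n → k)}
    (hU : IsStable (rep ψ T) U)
    {p : ℕ} (hp : p.Prime) (hpS : p ∉ S) (hpℓ : ℓ ≠ p) {P₀ : Ideal ZBar} (hP₀ : P₀.IsMaximal)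
    (hpP₀ : (p : ZBar) ∈ P₀) {m : GQ ⧸ F.fixingSubgroup → ℕ} (hm : Expo F p P₀ m) {M : ℤ}
    (hMk : (M : k) ≠ 0) (hM : ExclAll T w p (n - finrank k U) P₀ m M) : False := by
  classical
  obtain ⟨Pl, s, hd⟩ := exists_data (F := F) hp
  obtain ⟨a, ha, hprod⟩ := det_relation ψ hT hU (hW U hU) hp hpℓ hP₀ hpP₀ hm hd
  have htop : IsStable (rep ψ T) (⊤ : Submodule k (Fin n → k)) := fun _ _ _ => Submodule.mem_top
  obtain ⟨b, hb, hprod'⟩ := det_relation ψ hT htop (hW ⊤ htop) hp hpℓ hP₀ hpP₀ hm hd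
  rw [finrank_top, finrank_fin_fun] at hb
  have hle : finrank k U ≤ n := by
    have := Submodule.finrank_le U
    rwa [finrank_fin_fun] at this
  have hMΩ : (M : AlgebraicClosure k) ≠ 0 := by
    rw [← map_intCast (algebraMap k (AlgebraicClosure k))]
    exact (_root_.map_ne_zero _).2 hMk
  have hUs : ∀ g, U ≤ U.comap (lin (rep ψ T) g) := fun g u hu => hU g u hu
  have hts : ∀ g, (⊤ : Submodule k (Fin n → k)) ≤ (⊤ : Submodule k (Fin n → k)).comap
    (lin (rep ψ T) g) := fun g u hu => htop g u hu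
  have hr := fun g => Pool.Agent.Y126.MD.roots_sub (Ω := AlgebraicClosure k) (hUs g)
  have ht := fun g => Pool.Agent.Y126.MD.roots_sub (Ω := AlgebraicClosure k) (hts g)
  -- all eigenvalues
  have hall : ∀ g, ((lin (rep ψ T) g).restrict (hts g)).charpoly.aroots (AlgebraicClosure k) =
      (lin (rep ψ T) g).charpoly.aroots (AlgebraicClosure k) := by
    intro g
    apply Multiset.eq_of_le_of_card_le (ht g).1
    rw [(ht g).2.2, finrank_top, finrank_fin_fun]
    refine (Polynomial.card_roots' _).trans ?_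
    rw [natDegree_map, LinearMap.charpoly_natDegree, finrank_fin_fun]
  let A : Ideal (𝓞 F) → Multiset (AlgebraicClosure k) := fun 𝔭 =>
    (lin (rep ψ T) (s 𝔭)).charpoly.aroots (AlgebraicClosure k) -
      ((lin (rep ψ T) (s 𝔭)).restrict (hUs (s 𝔭))).charpoly.aroots (AlgebraicClosure k)
  have hA : ∀ 𝔭, A 𝔭 +
      ((lin (rep ψ T) (s 𝔭)).restrict (hUs (s 𝔭))).charpoly.aroots (AlgebraicClosure k) =
      (lin (rep ψ T) (s 𝔭)).charpoly.aroots (AlgebraicClosure k) := fun 𝔭 =>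
    Multiset.sub_add_cancel (hr (s 𝔭)).1
  have hba : a ≤ b ∧ 2 * (b - a) = w * (finrank ℚ F * (n - finrank k U)) := by
    have h1 : w * (finrank ℚ F * n) = w * (finrank ℚ F * (n - finrank k U)) +
        w * (finrank ℚ F * finrank k U) := by
      rw [← mul_add, ← mul_add, Nat.sub_add_cancel hle]
    omega
  have hp0 : (p : AlgebraicClosure k) ≠ 0 := by
    obtain ⟨P', σ', hP', hpP', hσ'⟩ := exists_geom hp
    have h2 := chik_frob ψ hp hpℓ hP' hpP' hσ'
    rw [← map_natCast (algebraMap k (AlgebraicClosure k))]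
    exact (_root_.map_ne_zero _).2 (right_ne_zero_of_mul_eq_one h2)
  refine hM (AlgebraicClosure k) hMΩ A (fun 𝔭 h𝔭 hp𝔭 => ?_) (b - a) hba.2 ?_
  · obtain ⟨h1, h2, h3, h4⟩ := hd 𝔭 h𝔭 hp𝔭
    constructor
    · have h5 := congrArg Multiset.card (hA 𝔭)
      rw [Multiset.card_add, (hr (s 𝔭)).2.2, ← hall, (ht (s 𝔭)).2.2, finrank_top,
        finrank_fin_fun] at h5
      omega
    · rw [← roots_place ψ hT.toGoodSystem hp hpS hpℓ h𝔭 hp𝔭 h1 h3 h4]
      exact Multiset.sub_le_self _ _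
  · have h6 := congrArg (algebraMap k (AlgebraicClosure k)) hprod
    have h7 := congrArg (algebraMap k (AlgebraicClosure k)) hprod'
    rw [map_prod, map_pow, map_natCast] at h6 h7
    have h8 : (∏ q, (A (pla P₀ q)).prod ^ m q) *
        (p : AlgebraicClosure k) ^ (expo F.fixingSubgroup * a) =
        (p : AlgebraicClosure k) ^ (expo F.fixingSubgroup * b) := by
      rw [← h6, ← h7, ← Finset.prod_mul_distrib]
      refine Finset.prod_congr rfl fun q _ => ?_
      have h9 := (hr (s (pla P₀ q))).2.1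
      have h10 := (ht (s (pla P₀ q))).2.1
      rw [map_pow, map_pow]
      have h11 : algebraMap k (AlgebraicClosure k)
          (detChar (rep ψ T) U hU (s (pla P₀ q)) : k) =
          (((lin (rep ψ T) (s (pla P₀ q))).restrict (hUs (s (pla P₀ q)))).charpoly.aroots
            (AlgebraicClosure k)).prod := h9.symm
      have h12 : algebraMap k (AlgebraicClosure k)
          (detChar (rep ψ T) ⊤ htop (s (pla P₀ q)) : k) =
          (((lin (rep ψ T) (s (pla P₀ q))).restrict (hts (s (pla P₀ q)))).charpoly.aroots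
            (AlgebraicClosure k)).prod := h10.symm
      rw [h11, h12, ← mul_pow, ← Multiset.prod_add, hA, hall]
    have h9 : expo F.fixingSubgroup * b =
        expo F.fixingSubgroup * (b - a) + expo F.fixingSubgroup * a := by
      rw [← mul_add, Nat.sub_add_cancel hba.1]
    rw [h9, pow_add] at h8
    exact mul_right_cancel₀ (pow_ne_zero _ hp0) h8

end use

/-- The class of the systems without relations: for every `ℓ` in `Λ` and every `d` with
`0 < d ≤ n / 2` there is a prime number `p ≠ ℓ` outside `S` such that the Frobenius eigenvalues at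
the places above `p` have no relation of size `d`. -/
structure Unrelated (S : Finset ℕ) (w : ℕ) (Λ : Set ℕ) (T : IntegralSystem F n) : Prop
    extends T.PureSystem S w where
  generic : ∀ ℓ : ℕ, ℓ.Prime → ℓ ∈ Λ → ∀ d : ℕ, 0 < d → 2 * d ≤ n →
    ∃ p : ℕ, p.Prime ∧ p ∉ S ∧ p ≠ ℓ ∧ NoRelation T w p d

/-- **Irreducibility.** -/
theorem irr_of_unrelated {Λ : Set ℕ} (hT : Unrelated S w Λ T) : T.IsIrreducible Λ where
  rational ℓ _ hΛ U hU := by
    rename_i hℓ
    have hle : finrank ℚ_[ℓ] U ≤ n := by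
      have := Submodule.finrank_le U
      rwa [finrank_fin_fun] at this
    rcases Nat.eq_zero_or_pos (finrank ℚ_[ℓ] U) with h0 | hpos
    · left
      exact Submodule.finrank_eq_zero.1 h0
    rcases Nat.lt_or_ge (finrank ℚ_[ℓ] U) n with hlt | hge
    · exfalso
      by_cases h2 : 2 * finrank ℚ_[ℓ] U ≤ n
      · obtain ⟨p, hp, hpS, hpℓ, hno⟩ := hT.generic ℓ hℓ.out hΛ _ hpos h2
        obtain ⟨P₀, m, hP₀, hpP₀, hm⟩ := exists_expo (F := F) hp
        obtain ⟨M, hM0, hM⟩ := exists_exclAll hT.toGoodSystem hp hpS hno hP₀ hpP₀ hm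
        exact no_sub (algebraMap ℤ_[ℓ] ℚ_[ℓ]) hT.toPureSystem hU
          (rat_wt hT.toPureSystem U hU) hp hpS hpℓ.symm hP₀ hpP₀ hm (M := M)
          (by exact_mod_cast hM0) hM
      · obtain ⟨p, hp, hpS, hpℓ, hno⟩ := hT.generic ℓ hℓ.out hΛ (n - finrank ℚ_[ℓ] U)
          (by omega) (by omega)
        obtain ⟨P₀, m, hP₀, hpP₀, hm⟩ := exists_expo (F := F) hp
        obtain ⟨M, hM0, hM⟩ := exists_exclAll hT.toGoodSystem hp hpS hno hP₀ hpP₀ hm
        exact no_quot (algebraMap ℤ_[ℓ] ℚ_[ℓ]) hT.toPureSystem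
          (fun U hU => rat_wt hT.toPureSystem U hU) hU hp hpS hpℓ.symm hP₀ hpP₀ hm (M := M)
          (by exact_mod_cast hM0) hM
    · right
      apply Submodule.eq_top_of_finrank_eq
      rw [finrank_fin_fun]
      omega
  residual := by
    classical
    by_cases hΛ : ∃ ℓ₀ : ℕ, ℓ₀.Prime ∧ ℓ₀ ∈ Λ
    · obtain ⟨ℓ₀, hℓ₀, hℓ₀Λ⟩ := hΛ
      obtain ⟨N, hN⟩ := res_wt hT.toPureSystem
      have key : ∀ d : ℕ, ∃ (p : ℕ) (P₀ : Ideal ZBar) (m : GQ ⧸ F.fixingSubgroup → ℕ) (M : ℤ),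
          0 < d → 2 * d ≤ n → p.Prime ∧ p ∉ S ∧ P₀.IsMaximal ∧ (p : ZBar) ∈ P₀ ∧ Expo F p P₀ m ∧
            M ≠ 0 ∧ ExclAll T w p d P₀ m M := by
        intro d
        by_cases hd : 0 < d ∧ 2 * d ≤ n
        · obtain ⟨p, hp, hpS, _, hno⟩ := hT.generic ℓ₀ hℓ₀ hℓ₀Λ d hd.1 hd.2
          obtain ⟨P₀, m, hP₀, hpP₀, hm⟩ := exists_expo (F := F) hp
          obtain ⟨M, hM0, hM⟩ := exists_exclAll hT.toGoodSystem hp hpS hno hP₀ hpP₀ hm
          exact ⟨p, P₀, m, M, fun _ _ => ⟨hp, hpS, hP₀, hpP₀, hm, hM0, hM⟩⟩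
        · exact ⟨0, ⊥, fun _ => 0, 0, fun h1 h2 => absurd ⟨h1, h2⟩ hd⟩
      choose p P₀ m M hk using key
      refine ⟨max N ((Finset.range (n + 1)).sup fun d => max (p d) (M d).natAbs), ?_⟩
      intro ℓ hℓ _ hlt U hU
      rw [max_lt_iff] at hlt
      have hlt2 : ∀ d ≤ n, p d < ℓ ∧ (M d).natAbs < ℓ := by
        intro d hd
        have h1 := lt_of_le_of_lt (Finset.le_sup (f := fun d => max (p d) (M d).natAbs)
          (Finset.mem_range.2 (Nat.lt_succ_of_le hd))) hlt.2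
        exact max_lt_iff.1 h1
      have hle : finrank (ZMod ℓ) U ≤ n := by
        have := Submodule.finrank_le U
        rwa [finrank_fin_fun] at this
      rcases Nat.eq_zero_or_pos (finrank (ZMod ℓ) U) with h0 | hpos
      · left
        exact Submodule.finrank_eq_zero.1 h0
      rcases Nat.lt_or_ge (finrank (ZMod ℓ) U) n with hlt' | hge
      · exfalso
        by_cases h2 : 2 * finrank (ZMod ℓ) U ≤ n
        · obtain ⟨hp, hpS, hP₀, hpP₀, hm, hM0, hM⟩ := hk _ hpos h2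
          obtain ⟨h3, h4⟩ := hlt2 _ hle
          exact no_sub (PadicInt.toZMod (p := ℓ)) hT.toPureSystem hU
            (hN ℓ hlt.1 U hU) hp hpS (by omega) hP₀ hpP₀ hm (ne_zero_mod hM0 h4) hM
        · obtain ⟨hp, hpS, hP₀, hpP₀, hm, hM0, hM⟩ := hk (n - finrank (ZMod ℓ) U) (by omega)
            (by omega)
          obtain ⟨h3, h4⟩ := hlt2 (n - finrank (ZMod ℓ) U) (Nat.sub_le _ _)
          exact no_quot (PadicInt.toZMod (p := ℓ)) hT.toPureSystem
            (fun U hU => hN ℓ hlt.1 U hU) hU hp hpS (by omega) hP₀ hpP₀ hm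
            (ne_zero_mod hM0 h4) hM
      · right
        apply Submodule.eq_top_of_finrank_eq
        rw [finrank_fin_fun]
        omega
    · exact ⟨0, fun ℓ hℓ hℓΛ _ => absurd ⟨ℓ, hℓ.out, hℓΛ⟩ hΛ⟩

end Pool.Agent.Helper83.SM
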