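import Pool.Agent.Helper83.SM.Crit
import Pool.Agent.Helper83.SM.Unpol

/-!
# Frobenius polynomials over `ℚ` without the root `p ^ (w / 2)`
-/

set_option autoImplicit false
set_option linter.unusedSectionVars false

namespace Pool.Agent.Helper83.SM

open Module Polynomial NumberField Pool.Agent.Y800 Pool.Agent.R390.SF
open Pool.Agent.Y126.SH (chi exists_reps)

/-- the eigenvalue `c⁻¹` of `M` -/
theorem det_one_sub {R : Type*} [CommRing R] {n : ℕ} (M : Matrix (Fin n) (Fin n) R) {c y : R}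
    (h : c * y = 1) : y ^ n * (1 - c • M).det = M.charpoly.eval y := by
  rw [Matrix.eval_charpoly]
  have h1 := Matrix.det_smul (1 - c • M) y
  rw [Fintype.card_fin] at h1
  rw [← h1, smul_sub, smul_smul, mul_comm y c, h, one_smul]
  congr 1
  congr 1
  ext i j
  by_cases hij : i = j
  · subst hij; simp
  · simp [hij]

variable {F : SubFld ℚ} [hF : FiniteDimensional ℚ F] {n : ℕ} {S : Finset ℕ} {w : ℕ}
  {T : IntegralSystem F n}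

/-- **If `p₀ ^ b` is not an eigenvalue at a place of degree one, then the same holds for infinitely many
primes.** -/
theorem exists_eval (hT : T.GoodSystem S w) {p₀ : ℕ} (hp₀ : p₀.Prime) (hp₀S : p₀ ∉ S)
    {P₀ : Ideal ZBar} (hP₀ : P₀.IsMaximal) (hpP₀ : (p₀ : ZBar) ∈ P₀) {σ₀ : F.fixingSubgroup}
    (hσ₀ : IsGeomFrob p₀ P₀ σ₀) (b : ℕ)
    (hne : (T.poly (P₀.under (𝓞 F))).eval ((p₀ : ℤ) ^ b) ≠ 0) (E : Finset ℕ) :
    ∃ p : ℕ, p.Prime ∧ p ∉ S ∧ p ∉ E ∧ ∃ P : Ideal ZBar, P.IsMaximal ∧ (p : ZBar) ∈ P ∧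
      (T.poly (P.under (𝓞 F))).eval ((p : ℤ) ^ b) ≠ 0 := by
  obtain ⟨ℓ, hℓ, hℓp⟩ : ∃ ℓ : ℕ, ℓ.Prime ∧ ℓ ≠ p₀ := by
    by_cases h2 : p₀ = 2
    · exact ⟨3, Nat.prime_three, by omega⟩
    · exact ⟨2, Nat.prime_two, fun h => h2 h.symm⟩
  have : Fact ℓ.Prime := ⟨hℓ⟩
  let f : F.fixingSubgroup → ℤ_[ℓ] := fun g =>
    (1 - ((chi ℓ g : ℤ_[ℓ]) ^ b) • (T.rho ℓ g : Matrix (Fin n) (Fin n) ℤ_[ℓ])).det
  have hval : ∀ p : ℕ, p.Prime → p ∉ S → ℓ ≠ p → ∀ P : Ideal ZBar, P.IsMaximal →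
      (p : ZBar) ∈ P → ∀ σ : F.fixingSubgroup, IsGeomFrob p P σ →
      ((p : ℤ_[ℓ]) ^ b) ^ n * f σ =
        (((T.poly (P.under (𝓞 F))).eval ((p : ℤ) ^ b) : ℤ) : ℤ_[ℓ]) := by
    intro p hp hpS hpℓ P hP hpP σ hσ
    have hm : (P.under (𝓞 F)).IsMaximal := Ideal.IsMaximal.under (𝓞 F) P
    have hpm : (p : 𝓞 F) ∈ P.under (𝓞 F) := by
      rw [mem_under, map_natCast]
      exact hpP
    have h4 := (hT.good p hp hpS _ hm hpm).frobenius ℓ hpℓ P hP rfl σ (by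
      have h5 : Nat.card (𝓞 F ⧸ P.under (𝓞 F)) = p := resCard_one hp hP hpP σ.2 hσ
      rw [h5]
      exact hσ)
    have h5 := det_one_sub (T.rho ℓ σ : Matrix (Fin n) (Fin n) ℤ_[ℓ])
      (c := (chi ℓ σ : ℤ_[ℓ]) ^ b) (y := (p : ℤ_[ℓ]) ^ b)
      (by rw [← mul_pow, Pool.Agent.Y126.SH.chi_frob hp hpℓ hP hpP hσ, one_pow])
    rw [h5, h4, eval_map]
    have h6 : ((p : ℤ_[ℓ]) ^ b) = (Int.castRingHom ℤ_[ℓ]) ((p : ℤ) ^ b) := by simp
    rw [h6, eval₂_at_apply]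
    rfl
  have hcont : Continuous f := by
    have h1 : Continuous fun g : F.fixingSubgroup => (chi ℓ g : ℤ_[ℓ]) ^ b :=
      (Units.continuous_val.comp ((Pool.Agent.Y126.SH.continuous_chi ℓ).comp
        continuous_subtype_val)).pow b
    refine Continuous.matrix_det (continuous_const.sub ?_)
    refine continuous_matrix fun i j => ?_
    exact h1.mul ((hT.continuous ℓ).matrix_elem i j)
  by_contra hcon
  have hC : IsClosed {g : F.fixingSubgroup | f g = 0} := isClosed_singleton.preimage hcont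
  have h1 := closed_univ' _ hC (S ∪ E ∪ {ℓ}) (fun p hp hpS P hP hpP σ hσ => by
    simp only [Finset.mem_union, Finset.mem_singleton, not_or] at hpS
    by_contra hne
    apply hcon
    refine ⟨p, hp, hpS.1.1, hpS.1.2, P, hP, hpP, ?_⟩
    intro h0
    apply hne
    have h2 := hval p hp hpS.1.1 (fun h => hpS.2 h.symm) P hP hpP σ hσ
    rw [h0, Int.cast_zero] at h2
    rcases mul_eq_zero.1 h2 with h3 | h3
    · exact absurd h3 (pow_ne_zero _ (pow_ne_zero _ (by exact_mod_cast hp.ne_zero)))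
    · exact h3) σ₀
  have h2 : f σ₀ = 0 := h1
  have h3 := hval p₀ hp₀ hp₀S hℓp P₀ hP₀ hpP₀ σ₀ hσ₀
  rw [h2, mul_zero] at h3
  exact hne (by exact_mod_cast h3.symm)

section one

variable (h1F : finrank ℚ F = 1)

include h1F

theorem exists_eval_one (hT : T.GoodSystem S w) {p₀ : ℕ} (hp₀ : p₀.Prime) (hp₀S : p₀ ∉ S)
    (hne : ∀ 𝔭 : Ideal (𝓞 F), 𝔭.IsMaximal → (p₀ : 𝓞 F) ∈ 𝔭 → ∀ b : ℕ, 2 * b = w →
      (T.poly 𝔭).eval ((p₀ : ℤ) ^ b) ≠ 0) (ℓ : ℕ) :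
    ∃ p : ℕ, p.Prime ∧ p ∉ S ∧ p ≠ ℓ ∧
      ∀ 𝔭 : Ideal (𝓞 F), 𝔭.IsMaximal → (p : 𝓞 F) ∈ 𝔭 → ∀ b : ℕ, 2 * b = w →
        (T.poly 𝔭).eval ((p : ℤ) ^ b) ≠ 0 := by
  rcases Nat.even_or_odd' w with ⟨b, hb | hb⟩
  · obtain ⟨P₀, σ₀, hP₀, hpP₀, hσ₀⟩ := exists_geom hp₀
    obtain ⟨p, hp, hpS, hpE, P, hP, hpP, h⟩ := exists_eval hT hp₀ hp₀S hP₀ hpP₀
      (σ₀ := ⟨σ₀, by rw [fixing_top h1F]; trivial⟩) hσ₀ b
      (hne _ (under_max hP₀) (by rw [mem_under, map_natCast]; exact hpP₀) b hb.symm) {ℓ}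
    refine ⟨p, hp, hpS, fun h' => hpE (Finset.mem_singleton.2 h'), fun 𝔭 h𝔭 hp𝔭 c hc => ?_⟩
    obtain rfl : c = b := by omega
    rw [under_one h1F hp hP hpP h𝔭 hp𝔭]
    exact h
  · obtain ⟨p, hp, hp'⟩ := Nat.exists_infinite_primes ((S ∪ {ℓ}).sup id + 1)
    have hnot : p ∉ S ∪ {ℓ} := by
      intro h
      have := Finset.le_sup (f := id) h
      simp only [id] at this
      omega
    simp only [Finset.mem_union, Finset.mem_singleton, not_or] at hnot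
    exact ⟨p, hp', hnot.1, hnot.2, fun _ _ _ c hc => by omega⟩

/-- **No relation in rank at most three.** -/
theorem noRel_of_eval {p : ℕ} (hp : p.Prime)
    (hne : ∀ 𝔭 : Ideal (𝓞 F), 𝔭.IsMaximal → (p : 𝓞 F) ∈ 𝔭 → ∀ b : ℕ, 2 * b = w →
      (T.poly 𝔭).eval ((p : ℤ) ^ b) ≠ 0) : NoRelation T w p 1 := by
  intro A hA hbal
  obtain ⟨𝔭, h𝔭, hp𝔭, hcard, a, ha, hprod⟩ := balanced_one h1F hp hbal
  obtain ⟨h1, h2⟩ := hA 𝔭 h𝔭 hp𝔭
  obtain ⟨α, hα⟩ := Multiset.card_eq_one.1 h1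
  rw [hα, Multiset.prod_singleton] at hprod
  rw [hα, Multiset.singleton_le, hprod, mem_aroots] at h2
  apply hne 𝔭 h𝔭 hp𝔭 a (by omega)
  have h3 := h2.2
  have h4 : ((p : ℂ) ^ a) = algebraMap ℤ ℂ ((p : ℤ) ^ a) := by simp
  rw [h4, aeval_algebraMap_apply] at h3
  have h5 : ((aeval ((p : ℤ) ^ a) (T.poly 𝔭) : ℤ) : ℂ) = 0 := h3
  rw [Int.cast_eq_zero] at h5
  exact h5

end one

end Pool.Agent.Helper83.SM
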