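import Pool.Agent.Helper83.SM.Core

/-!
# Relations between Frobenius eigenvalues exclude stable subspaces
-/

set_option autoImplicit false
set_option linter.unusedSectionVars false

namespace Pool.Agent.Helper83.SM

open Module Polynomial NumberField Pool.Agent.Y800 Pool.Agent.R390.SF
open Pool.Agent.Y126.SH (chi)

attribute [local instance] Subgroup.fintypeQuotientOfFiniteIndex

variable {F : SubFld ℚ} [hF : FiniteDimensional ℚ F]

open Classical in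
/-- the places -/
noncomputable abbrev Pls (F : SubFld ℚ) [FiniteDimensional ℚ F] (P₀ : Ideal ZBar) : Type :=
  {𝔭 : Ideal (𝓞 F) // 𝔭 ∈ (Finset.univ.image (pla P₀) : Finset (Ideal (𝓞 F)))}

open Classical in
theorem prod_places {R : Type*} [CommMonoid R] (P₀ : Ideal ZBar)
    (m : GQ ⧸ F.fixingSubgroup → ℕ) (f : Ideal (𝓞 F) → R) :
    ∏ q, f (pla P₀ q) ^ m q =
      ∏ j : Pls F P₀, f j ^ (∑ q ∈ Finset.univ.filter (fun q => pla P₀ q = j), m q) := by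
  rw [← Finset.prod_fiberwise_of_maps_to (s := Finset.univ) (g := pla P₀)
    (t := Finset.univ.image (pla P₀)) (fun q _ => Finset.mem_image_of_mem _ (Finset.mem_univ q)),
    ← Finset.prod_coe_sort]
  refine Finset.prod_congr rfl fun j _ => ?_
  rw [← Finset.prod_pow_eq_pow_sum]
  refine Finset.prod_congr rfl fun q hq => ?_
  rw [(Finset.mem_filter.1 hq).2]

variable {n : ℕ} {S : Finset ℕ} {w : ℕ} {T : IntegralSystem F n}

/-- the condition in all characteristics: isotropic families -/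
def ExclIso (T : IntegralSystem F n) (w p d : ℕ) (P₀ : Ideal ZBar)
    (m : GQ ⧸ F.fixingSubgroup → ℕ) (M : ℤ) : Prop :=
  ∀ (Ω : Type) [Field Ω] [IsAlgClosed Ω], (M : Ω) ≠ 0 → ∀ A : Ideal (𝓞 F) → Multiset Ω,
    (∀ 𝔭 : Ideal (𝓞 F), 𝔭.IsMaximal → (p : 𝓞 F) ∈ 𝔭 → Multiset.card (A 𝔭) = d ∧
      A 𝔭 + (A 𝔭).map (fun z => ((Nat.card (𝓞 F ⧸ 𝔭) ^ w : ℕ) : Ω) / z) ≤
        ((T.poly 𝔭).map (Int.castRingHom Ω)).roots) →
    ∀ a, 2 * a = w * (finrank ℚ F * d) →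
      ∏ q, (A (pla P₀ q)).prod ^ m q ≠ (p : Ω) ^ (expo F.fixingSubgroup * a)

/-- the condition in all characteristics: all families -/
def ExclAll (T : IntegralSystem F n) (w p d : ℕ) (P₀ : Ideal ZBar)
    (m : GQ ⧸ F.fixingSubgroup → ℕ) (M : ℤ) : Prop :=
  ∀ (Ω : Type) [Field Ω] [IsAlgClosed Ω], (M : Ω) ≠ 0 → ∀ A : Ideal (𝓞 F) → Multiset Ω,
    (∀ 𝔭 : Ideal (𝓞 F), 𝔭.IsMaximal → (p : 𝓞 F) ∈ 𝔭 → Multiset.card (A 𝔭) = d ∧
      A 𝔭 ≤ ((T.poly 𝔭).map (Int.castRingHom Ω)).roots) →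
    ∀ a, 2 * a = w * (finrank ℚ F * d) →
      ∏ q, (A (pla P₀ q)).prod ^ m q ≠ (p : Ω) ^ (expo F.fixingSubgroup * a)

theorem exists_expo {p : ℕ} (hp : p.Prime) : ∃ (P₀ : Ideal ZBar)
    (m : GQ ⧸ F.fixingSubgroup → ℕ), P₀.IsMaximal ∧ (p : ZBar) ∈ P₀ ∧ Expo F p P₀ m := by
  obtain ⟨P₀, σ, hP₀, hpP₀, hσ⟩ := exists_geom hp
  obtain ⟨Pl, s, hd⟩ := exists_data (F := F) hp
  obtain ⟨m, hm, _⟩ := zz_data hp hP₀ hpP₀ hσ hd
  exact ⟨P₀, m, hP₀, hpP₀, hm⟩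

open Classical in
theorem sum_pos_of {p : ℕ} (hp : p.Prime) {P₀ : Ideal ZBar} {m : GQ ⧸ F.fixingSubgroup → ℕ}
    (hm : Expo F p P₀ m) (j : Pls F P₀) :
    0 < ∑ q ∈ Finset.univ.filter (fun q => pla P₀ q = j), m q := by
  obtain ⟨q, _, hq⟩ := Finset.mem_image.1 j.2
  exact Finset.sum_pos (fun q _ => hm.pos hp q) ⟨q, Finset.mem_filter.2 ⟨Finset.mem_univ _, hq⟩⟩

theorem exists_exclIso (hT : T.GoodSystem S w) {p : ℕ} (hp : p.Prime) (hpS : p ∉ S) {d : ℕ}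
    (hno : NoIsotropicRelation T w p d) {P₀ : Ideal ZBar} (hP₀ : P₀.IsMaximal)
    (hpP₀ : (p : ZBar) ∈ P₀) {m : GQ ⧸ F.fixingSubgroup → ℕ} (hm : Expo F p P₀ m) :
    ∃ M : ℤ, M ≠ 0 ∧ ExclIso T w p d P₀ m M := by
  classical
  by_cases hpar : ∃ a, 2 * a = w * (finrank ℚ F * d)
  · obtain ⟨a, ha⟩ := hpar
    obtain ⟨M, hM0, hM⟩ := rel_iso (J := Pls F P₀) (fun j => T.poly j) (fun j =>
        (hT.good p hp hpS j.1 (by
          obtain ⟨q, _, hq⟩ := Finset.mem_image.1 j.2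
          rw [← hq]
          exact pla_max hP₀ q) (by
          obtain ⟨q, _, hq⟩ := Finset.mem_image.1 j.2
          rw [← hq]
          exact pla_mem hpP₀ q)).monic)
      (fun j => Nat.card (𝓞 F ⧸ (j : Ideal (𝓞 F))) ^ w)
      (fun j => ∑ q ∈ Finset.univ.filter (fun q => pla P₀ q = j), m q) (fun j => by
        obtain ⟨q, _, hq⟩ := Finset.mem_image.1 j.2
        rw [← hq]
        apply pow_ne_zero
        intro h0
        have h1 := hm q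
        rw [show Nat.card (𝓞 F ⧸ (cj q.out P₀).under (𝓞 F)) = 0 from h0,
          zero_pow (hm.pos hp q).ne'] at h1
        exact pow_ne_zero _ hp.ne_zero h1.symm) (fun j => sum_pos_of hp hm j)
      (c := p ^ (expo F.fixingSubgroup * a)) (pow_ne_zero _ hp.ne_zero)
    refine ⟨M, hM0, ?_⟩
    intro Ω _ _ hMΩ A hA a' ha' hprod
    obtain rfl : a' = a := by omega
    obtain ⟨A', hA', hprod'⟩ := hM Ω hMΩ (fun j => A j) (fun j => by
      obtain ⟨q, _, hq⟩ := Finset.mem_image.1 j.2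
      refine (hA j.1 ?_ ?_).2
      · rw [← hq]
        exact pla_max hP₀ q
      · rw [← hq]
        exact pla_mem hpP₀ q) (by
      have h1 := prod_places P₀ m (fun 𝔭 => (A 𝔭).prod)
      refine (h1.symm.trans hprod).trans ?_
      rw [Nat.cast_pow])
    let A'' : Ideal (𝓞 F) → Multiset ℂ := fun 𝔭 =>
      if h : 𝔭 ∈ (Finset.univ.image (pla P₀) : Finset (Ideal (𝓞 F))) then A' ⟨𝔭, h⟩ else 0
    have hA'' : ∀ j : Pls F P₀, A'' j = A' j := fun j => dif_pos j.2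
    refine hno A'' ?_ ⟨P₀, hP₀, hpP₀, m, a', hm, ha', ?_⟩
    · intro 𝔭 h𝔭 hp𝔭
      obtain ⟨q, hq⟩ := exists_pla hp hP₀ hpP₀ h𝔭 hp𝔭
      have hj : 𝔭 ∈ (Finset.univ.image (pla P₀) : Finset (Ideal (𝓞 F))) :=
        Finset.mem_image.2 ⟨q, Finset.mem_univ _, hq⟩
      have h1 := hA'' ⟨𝔭, hj⟩
      obtain ⟨h2, h3⟩ := hA' ⟨𝔭, hj⟩
      have h4 : A'' 𝔭 = A' ⟨𝔭, hj⟩ := h1
      rw [h4]
      refine ⟨by rw [h2]; exact (hA 𝔭 h𝔭 hp𝔭).1, ?_⟩
      have h5 := h3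
      simp only [Nat.cast_pow] at h5
      exact h5
    · rw [finprod_eq_prod_of_fintype]
      have h1 := prod_places P₀ m (fun 𝔭 => (A'' 𝔭).prod)
      rw [← Nat.cast_pow, ← hprod']
      refine h1.trans (Finset.prod_congr rfl fun j _ => ?_)
      rw [hA'']
  · exact ⟨1, one_ne_zero, fun Ω _ _ _ A _ a ha => absurd ⟨a, ha⟩ hpar⟩

theorem exists_exclAll (hT : T.GoodSystem S w) {p : ℕ} (hp : p.Prime) (hpS : p ∉ S) {d : ℕ}
    (hno : NoRelation T w p d) {P₀ : Ideal ZBar} (hP₀ : P₀.IsMaximal)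
    (hpP₀ : (p : ZBar) ∈ P₀) {m : GQ ⧸ F.fixingSubgroup → ℕ} (hm : Expo F p P₀ m) :
    ∃ M : ℤ, M ≠ 0 ∧ ExclAll T w p d P₀ m M := by
  classical
  by_cases hpar : ∃ a, 2 * a = w * (finrank ℚ F * d)
  · obtain ⟨a, ha⟩ := hpar
    obtain ⟨M, hM0, hM⟩ := rel_all (J := Pls F P₀) (fun j => T.poly j) (fun j =>
        (hT.good p hp hpS j.1 (by
          obtain ⟨q, _, hq⟩ := Finset.mem_image.1 j.2
          rw [← hq]
          exact pla_max hP₀ q) (by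
          obtain ⟨q, _, hq⟩ := Finset.mem_image.1 j.2
          rw [← hq]
          exact pla_mem hpP₀ q)).monic)
      (fun j => ∑ q ∈ Finset.univ.filter (fun q => pla P₀ q = j), m q)
      (p ^ (expo F.fixingSubgroup * a))
    refine ⟨M, hM0, ?_⟩
    intro Ω _ _ hMΩ A hA a' ha' hprod
    obtain rfl : a' = a := by omega
    obtain ⟨A', hA', hprod'⟩ := hM Ω hMΩ (fun j => A j) (fun j => by
      obtain ⟨q, _, hq⟩ := Finset.mem_image.1 j.2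
      refine (hA j.1 ?_ ?_).2
      · rw [← hq]
        exact pla_max hP₀ q
      · rw [← hq]
        exact pla_mem hpP₀ q) (by
      have h1 := prod_places P₀ m (fun 𝔭 => (A 𝔭).prod)
      refine (h1.symm.trans hprod).trans ?_
      rw [Nat.cast_pow])
    let A'' : Ideal (𝓞 F) → Multiset ℂ := fun 𝔭 =>
      if h : 𝔭 ∈ (Finset.univ.image (pla P₀) : Finset (Ideal (𝓞 F))) then A' ⟨𝔭, h⟩ else 0
    have hA'' : ∀ j : Pls F P₀, A'' j = A' j := fun j => dif_pos j.2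
    refine hno A'' ?_ ⟨P₀, hP₀, hpP₀, m, a', hm, ha', ?_⟩
    · intro 𝔭 h𝔭 hp𝔭
      obtain ⟨q, hq⟩ := exists_pla hp hP₀ hpP₀ h𝔭 hp𝔭
      have hj : 𝔭 ∈ (Finset.univ.image (pla P₀) : Finset (Ideal (𝓞 F))) :=
        Finset.mem_image.2 ⟨q, Finset.mem_univ _, hq⟩
      have h1 := hA'' ⟨𝔭, hj⟩
      obtain ⟨h2, h3⟩ := hA' ⟨𝔭, hj⟩
      have h4 : A'' 𝔭 = A' ⟨𝔭, hj⟩ := h1
      rw [h4]
      exact ⟨by rw [h2]; exact (hA 𝔭 h𝔭 hp𝔭).1, h3⟩
    · rw [finprod_eq_prod_of_fintype]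
      have h1 := prod_places P₀ m (fun 𝔭 => (A'' 𝔭).prod)
      rw [← Nat.cast_pow, ← hprod']
      refine h1.trans (Finset.prod_congr rfl fun j _ => ?_)
      rw [hA'']
  · exact ⟨1, one_ne_zero, fun Ω _ _ _ A _ a ha => absurd ⟨a, ha⟩ hpar⟩

section use

variable {ℓ : ℕ} [hℓ : Fact ℓ.Prime] {k : Type} [Field k] [TopologicalSpace k]
  [IsTopologicalRing k] (ψ : ℤ_[ℓ] →+* k)

/-- an isotropic stable subspace of dimension `d` is excluded -/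
theorem no_iso (hT : T.PureSystem S w) {J : Matrix (Fin n) (Fin n) ℤ_[ℓ]}
    (hJ : T.IsPolarization w ℓ J) (hJψ : ψ J.det ≠ 0) {U : Submodule k (Fin n → k)}
    (hU : IsStable (rep ψ T) U)
    (hiso : ∀ x ∈ U, ∀ y ∈ U, dotProduct x ((J.map ψ).mulVec y) = 0)
    (hW : Wt ψ w (finrank k U) (detChar (rep ψ T) U hU))
    {p : ℕ} (hp : p.Prime) (hpS : p ∉ S) (hpℓ : ℓ ≠ p) {P₀ : Ideal ZBar} (hP₀ : P₀.IsMaximal)
    (hpP₀ : (p : ZBar) ∈ P₀) {m : GQ ⧸ F.fixingSubgroup → ℕ} (hm : Expo F p P₀ m) {M : ℤ}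
    (hMk : (M : k) ≠ 0) (hM : ExclIso T w p (finrank k U) P₀ m M) : False := by
  obtain ⟨Pl, s, hd⟩ := exists_data (F := F) hp
  obtain ⟨a, ha, hprod⟩ := det_relation ψ hT hU hW hp hpℓ hP₀ hpP₀ hm hd
  have hMΩ : (M : AlgebraicClosure k) ≠ 0 := by
    rw [← map_intCast (algebraMap k (AlgebraicClosure k))]
    exact (_root_.map_ne_zero _).2 hMk
  have hUs : ∀ g, U ≤ U.comap (lin (rep ψ T) g) := fun g u hu => hU g u hu
  refine hM (AlgebraicClosure k) hMΩ (fun 𝔭 =>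
    ((lin (rep ψ T) (s 𝔭)).restrict (hUs (s 𝔭))).charpoly.aroots (AlgebraicClosure k))
    (fun 𝔭 h𝔭 hp𝔭 => ?_) a ha ?_
  · obtain ⟨h1, h2, h3, h4⟩ := hd 𝔭 h𝔭 hp𝔭
    exact ⟨(Pool.Agent.Y126.MD.roots_sub (Ω := AlgebraicClosure k) (hUs (s 𝔭))).2.2,
      roots_iso ψ hT.toGoodSystem hJ hJψ hU hiso hp hpS hpℓ h𝔭 hp𝔭 h1 h3 h4⟩
  · have h6 := congrArg (algebraMap k (AlgebraicClosure k)) hprod
    rw [map_prod, map_pow, map_natCast] at h6
    rw [← h6]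
    refine Finset.prod_congr rfl fun q _ => ?_
    rw [(Pool.Agent.Y126.MD.roots_sub (Ω := AlgebraicClosure k) (hUs (s (pla P₀ q)))).2.1,
      map_pow]
    rfl

/-- a stable subspace of dimension `d` is excluded -/
theorem no_sub (hT : T.PureSystem S w) {U : Submodule k (Fin n → k)}
    (hU : IsStable (rep ψ T) U)
    (hW : Wt ψ w (finrank k U) (detChar (rep ψ T) U hU))
    {p : ℕ} (hp : p.Prime) (hpS : p ∉ S) (hpℓ : ℓ ≠ p) {P₀ : Ideal ZBar} (hP₀ : P₀.IsMaximal)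
    (hpP₀ : (p : ZBar) ∈ P₀) {m : GQ ⧸ F.fixingSubgroup → ℕ} (hm : Expo F p P₀ m) {M : ℤ}
    (hMk : (M : k) ≠ 0) (hM : ExclAll T w p (finrank k U) P₀ m M) : False := by
  obtain ⟨Pl, s, hd⟩ := exists_data (F := F) hp
  obtain ⟨a, ha, hprod⟩ := det_relation ψ hT hU hW hp hpℓ hP₀ hpP₀ hm hd
  have hMΩ : (M : AlgebraicClosure k) ≠ 0 := by
    rw [← map_intCast (algebraMap k (AlgebraicClosure k))]
    exact (_root_.map_ne_zero _).2 hMk
  have hUs : ∀ g, U ≤ U.comap (lin (rep ψ T) g) := fun g u hu => hU g u hu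
  refine hM (AlgebraicClosure k) hMΩ (fun 𝔭 =>
    ((lin (rep ψ T) (s 𝔭)).restrict (hUs (s 𝔭))).charpoly.aroots (AlgebraicClosure k))
    (fun 𝔭 h𝔭 hp𝔭 => ?_) a ha ?_
  · obtain ⟨h1, h2, h3, h4⟩ := hd 𝔭 h𝔭 hp𝔭
    have h5 := Pool.Agent.Y126.MD.roots_sub (Ω := AlgebraicClosure k) (hUs (s 𝔭))
    refine ⟨h5.2.2, ?_⟩
    rw [← roots_place ψ hT.toGoodSystem hp hpS hpℓ h𝔭 hp𝔭 h1 h3 h4]
    exact h5.1
  · have h6 := congrArg (algebraMap k (AlgebraicClosure k)) hprod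
    rw [map_prod, map_pow, map_natCast] at h6
    rw [← h6]
    refine Finset.prod_congr rfl fun q _ => ?_
    rw [(Pool.Agent.Y126.MD.roots_sub (Ω := AlgebraicClosure k) (hUs (s (pla P₀ q)))).2.1,
      map_pow]
    rfl

end use

end Pool.Agent.Helper83.SM
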