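import Pool.Agent.R390.SF.PolMain
import Pool.Agent.K4H40.ST.Frob

/-!
# Frobenius elements of the Galois group of a number field at the places above a prime number
-/

set_option autoImplicit false
set_option linter.unusedSectionVars false

namespace Pool.Agent.Helper83.SM

open Module Polynomial NumberField Pool.Agent.Y800 Pool.Agent.R390.SF
open Pool.Agent.Y126.SH (chi)

variable {F : SubFld ℚ} [hF : FiniteDimensional ℚ F]

instance algClosure : IsAlgClosure F (AlgebraicClosure ℚ) where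
  isAlgClosed := inferInstance
  isAlgebraic := by
    have h1 : Algebra.IsAlgebraic ℚ (AlgebraicClosure ℚ) := AlgebraicClosure.isAlgebraic ℚ
    exact Algebra.IsAlgebraic.tower_top (K := ℚ) F

/-- the elements of the Galois group of `F` as elements of the one of `ℚ` -/
theorem exists_lift (σ : Gal((AlgebraicClosure ℚ)/F)) :
    ∃ s : F.fixingSubgroup, ∀ x : ZBar, (s : GQ) • x = σ • x := by
  refine ⟨(IntermediateField.fixingSubgroupEquiv F).symm σ, fun x => ?_⟩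
  apply RingOfIntegers.ext
  rfl

/-- **Geometric Frobenius elements of `F`.** -/
theorem exists_geomF {p : ℕ} (hp : p.Prime) {P : Ideal ZBar} (hP : P.IsMaximal)
    (hpP : (p : ZBar) ∈ P) : ∃ s : F.fixingSubgroup, IsGeomFrob (resCard F P) P s := by
  have hm : (P.under (𝓞 F)).IsMaximal := under_max hP
  have hpm : (p : 𝓞 F) ∈ P.under (𝓞 F) := by
    rw [mem_under, map_natCast]
    exact hpP
  have hne : P.under (𝓞 F) ≠ ⊥ := by
    intro h0
    rw [h0, Ideal.mem_bot] at hpm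
    exact hp.ne_zero (by exact_mod_cast hpm)
  obtain ⟨σ, hσ⟩ := Pool.Agent.K4H40.ST.Frob.task_frob (F := F) (Ω := AlgebraicClosure ℚ)
    ⟨P.under (𝓞 F), hm.isPrime, hne⟩ P rfl
  obtain ⟨s, hs⟩ := exists_lift σ
  have h1 : Ideal.absNorm (P.under (𝓞 F)) = resCard F P := by
    rw [Ideal.absNorm_apply, Submodule.cardQuot_apply]
    rfl
  refine ⟨s⁻¹, ?_⟩
  apply geom_of_arith
  intro x
  have h2 := hσ x
  rw [← hs, h1] at h2
  exact h2

/-- the maximal ideals above the same place of `F` are conjugate -/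
theorem exists_cjF {P Q : Ideal ZBar} (hP : P.IsMaximal) (hQ : Q.IsMaximal)
    (h : P.under (𝓞 F) = Q.under (𝓞 F)) : ∃ x : F.fixingSubgroup, Q = cj (x : GQ) P := by
  have := Pool.Agent.K4H40.ST.Frob.isGal (F := F) (Ω := AlgebraicClosure ℚ)
  have := Pool.Agent.K4H40.ST.Frob.inst_comm (F := F) (Ω := AlgebraicClosure ℚ)
  have := Pool.Agent.K4H40.ST.Frob.inst_inv (F := F) (Ω := AlgebraicClosure ℚ)
  let _ : TopologicalSpace ZBar := ⊥
  have : DiscreteTopology ZBar := ⟨rfl⟩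
  have : ContinuousSMul (Gal((AlgebraicClosure ℚ)/F)) ZBar := by
    rw [continuousSMul_iff_stabilizer_isOpen]
    intro x
    have := stabilizer_isOpen_of_isIntegral (K := F) (L := AlgebraicClosure ℚ)
      (x : AlgebraicClosure ℚ)
    convert this using 1
    ext σ
    simp only [SetLike.mem_coe, MulAction.mem_stabilizer_iff]
    constructor
    · intro h
      exact congrArg (fun y : ZBar => (y : AlgebraicClosure ℚ)) h
    · intro h
      exact RingOfIntegers.ext h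
  have := hP.isPrime
  have := hQ.isPrime
  obtain ⟨g, hg⟩ := Algebra.IsInvariant.exists_smul_of_under_eq_of_profinite (A := 𝓞 F)
    (G := Gal((AlgebraicClosure ℚ)/F)) P Q h
  obtain ⟨s, hs⟩ := exists_lift g⁻¹
  refine ⟨s, ?_⟩
  ext x
  rw [mem_cj, hs, hg]
  exact Ideal.mem_pointwise_smul_iff_inv_smul_mem

section chi

variable {ℓ : ℕ} [hℓ : Fact ℓ.Prime] {k : Type} [Field k] (ψ : ℤ_[ℓ] →+* k)

/-- the cyclotomic character at the powers of Frobenius elements -/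
theorem chik_geom {p : ℕ} (hp : p.Prime) (h : ℓ ≠ p) {P : Ideal ZBar} (hP : P.IsMaximal)
    (hpP : (p : ZBar) ∈ P) {f : ℕ} {s : GQ} (hs : IsGeomFrob (p ^ f) P s) :
    (chik ψ s : k) * (p : k) ^ f = 1 := by
  obtain ⟨P', σ', hP', hpP', hσ'⟩ := exists_geom hp
  obtain ⟨x, rfl⟩ := exists_cj hp hP' hpP' hP hpP
  have h1 := cj_frob (x := x) hσ'
  have h2 := geom_pow h1 f
  have h3 := geom_unique hP (pow_ne_zero _ hp.ne_zero) h2 hs
    (fun a b h => frob_inj hp hP hpP _ a b h)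
  have h4 := chik_inertia ψ hp h hP hpP h3
  rw [map_mul, map_inv, inv_mul_eq_one, map_pow] at h4
  rw [← h4, Units.val_pow_eq_pow_val, ← mul_pow, chik_frob ψ hp h hP hpP h1, one_pow]

end chi

/-- Frobenius elements at the places above `p` -/
theorem exists_data {p : ℕ} (hp : p.Prime) : ∃ (Pl : Ideal (𝓞 F) → Ideal ZBar)
    (s : Ideal (𝓞 F) → F.fixingSubgroup), ∀ 𝔭 : Ideal (𝓞 F), 𝔭.IsMaximal → (p : 𝓞 F) ∈ 𝔭 →
      (Pl 𝔭).IsMaximal ∧ (p : ZBar) ∈ Pl 𝔭 ∧ (Pl 𝔭).under (𝓞 F) = 𝔭 ∧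
        IsGeomFrob (resCard F (Pl 𝔭)) (Pl 𝔭) (s 𝔭) := by
  have h1 : ∀ 𝔭 : Ideal (𝓞 F), ∃ (P : Ideal ZBar) (s : F.fixingSubgroup), 𝔭.IsMaximal →
      (p : 𝓞 F) ∈ 𝔭 → P.IsMaximal ∧ (p : ZBar) ∈ P ∧ P.under (𝓞 F) = 𝔭 ∧
        IsGeomFrob (resCard F P) P s := by
    intro 𝔭
    by_cases h : 𝔭.IsMaximal ∧ (p : 𝓞 F) ∈ 𝔭
    · have := h.1
      obtain ⟨P, hP, hP𝔭⟩ := Ideal.exists_ideal_over_maximal_of_isIntegral (S := ZBar) 𝔭 (by
        rw [(RingHom.injective_iff_ker_eq_bot _).1 (FaithfulSMul.algebraMap_injective (𝓞 F) ZBar)]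
        exact bot_le)
      have hpP : (p : ZBar) ∈ P := by
        have h2 : (p : 𝓞 F) ∈ P.under (𝓞 F) := by
          show (p : 𝓞 F) ∈ P.comap _
          rw [hP𝔭]
          exact h.2
        rwa [mem_under, map_natCast] at h2
      obtain ⟨s, hs⟩ := exists_geomF (F := F) hp hP hpP
      exact ⟨P, s, fun _ _ => ⟨hP, hpP, hP𝔭, hs⟩⟩
    · exact ⟨⊥, 1, fun h2 h3 => absurd ⟨h2, h3⟩ h⟩
  choose Pl s hs using h1
  exact ⟨Pl, s, hs⟩

end Pool.Agent.Helper83.SM
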